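import Mathlib

set_option autoImplicit false
set_option linter.unusedSectionVars false

open Equiv Equiv.Perm Finset

namespace Pool.Agent.Lib.MP_bdfe25_al

variable {X : Type} [Fintype X] [DecidableEq X]

/-- the cycle of a point, fixed points included -/
def cls (σ : Perm X) (x : X) : Finset X := univ.filter (σ.SameCycle x)

def len (σ : Perm X) (x : X) : ℕ := (cls σ x).card

/-- the multiset of cycle lengths, fixed points included -/
def parts (σ : Perm X) : Multiset ℕ := (univ.image (cls σ)).val.map card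

theorem mem_cls {σ : Perm X} {x y : X} : y ∈ cls σ x ↔ σ.SameCycle x y := by simp [cls]

theorem cls_eq_iff {σ : Perm X} {x y : X} : cls σ x = cls σ y ↔ σ.SameCycle x y := by
  constructor
  · intro h
    rw [← mem_cls, h, mem_cls]
  · intro h
    ext z
    rw [mem_cls, mem_cls]
    exact ⟨fun h' => h.symm.trans h', fun h' => h.trans h'⟩

theorem len_congr {σ : Perm X} {x y : X} (h : σ.SameCycle x y) : len σ x = len σ y := by
  rw [len, len, cls_eq_iff.mpr h]

theorem len_mem (σ : Perm X) (x : X) : len σ x ∈ parts σ :=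
  Multiset.mem_map.mpr ⟨cls σ x, mem_image_of_mem _ (mem_univ x), rfl⟩

theorem exists_len {σ : Perm X} {a : ℕ} (h : a ∈ parts σ) : ∃ x, len σ x = a := by
  obtain ⟨s, hs, rfl⟩ := Multiset.mem_map.mp h
  obtain ⟨x, -, rfl⟩ := mem_image.mp hs
  exact ⟨x, rfl⟩

theorem sum_parts (σ : Perm X) : (parts σ).sum = Fintype.card X := by
  rw [← card_univ, card_eq_sum_card_image (cls σ) univ, parts, ← sum_eq_multiset_sum]
  refine sum_congr rfl fun s hs => ?_
  obtain ⟨x, -, rfl⟩ := mem_image.mp hs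
  congr 1
  ext y
  rw [mem_filter, mem_cls, cls_eq_iff]
  exact ⟨fun h => ⟨mem_univ _, h.symm⟩, fun h => h.2.symm⟩

theorem pow_apply_eq_iff (σ : Perm X) (x : X) (k : ℕ) : (σ ^ k) x = x ↔ len σ x ∣ k := by
  have h1 : len σ x = Function.minimalPeriod (σ • ·) x := by
    classical
    rw [MulAction.minimalPeriod_eq_card, len, ← Set.toFinset_card]
    congr 1
    ext y
    rw [mem_cls, Set.mem_toFinset, MulAction.mem_orbit_iff]
    constructor
    · rintro ⟨i, hi⟩
      exact ⟨⟨σ ^ i, i, rfl⟩, hi⟩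
    · rintro ⟨⟨_, i, rfl⟩, hi⟩
      exact ⟨i, hi⟩
  rw [h1, ← MulAction.pow_smul_eq_iff_minimalPeriod_dvd]
  rfl

theorem orderOf_eq_lcm (σ : Perm X) : orderOf σ = (parts σ).lcm := by
  apply Nat.dvd_antisymm
  · rw [orderOf_dvd_iff_pow_eq_one]
    ext x
    exact (pow_apply_eq_iff σ x _).mpr (Multiset.dvd_lcm (len_mem σ x))
  · rw [Multiset.lcm_dvd]
    intro a ha
    obtain ⟨x, rfl⟩ := exists_len ha
    rw [← pow_apply_eq_iff, pow_orderOf_eq_one]
    rfl

theorem parts_eq_cons (σ : Perm X) (x : X) :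
    parts σ = len σ x ::ₘ ((univ.image (cls σ)).erase (cls σ x)).val.map card := by
  rw [parts, len, ← Multiset.map_cons, erase_val,
    Multiset.cons_erase (mem_image_of_mem _ (mem_univ x))]

theorem pick {σ : Perm X} {x : X} {b : ℕ} {R : Multiset ℕ} (h : parts σ = len σ x ::ₘ b ::ₘ R) :
    ∃ y, ¬ σ.SameCycle x y ∧ len σ y = b := by
  rw [parts_eq_cons σ x, Multiset.cons_inj_right] at h
  have h1 : b ∈ ((univ.image (cls σ)).erase (cls σ x)).val.map card := by
    rw [h]; exact Multiset.mem_cons_self _ _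
  obtain ⟨s, hs, rfl⟩ := Multiset.mem_map.mp h1
  obtain ⟨h2, h3⟩ := mem_erase.mp hs
  obtain ⟨y, -, rfl⟩ := mem_image.mp h3
  exact ⟨y, fun h4 => h2 (cls_eq_iff.mpr h4).symm, rfl⟩

theorem len_mem_rest {σ : Perm X} {x y : X} {R : Multiset ℕ} (h : parts σ = len σ x ::ₘ R)
    (hxy : ¬ σ.SameCycle x y) : len σ y ∈ R := by
  rw [parts_eq_cons σ x, Multiset.cons_inj_right] at h
  rw [← h]
  exact Multiset.mem_map.mpr ⟨cls σ y, mem_erase.mpr
    ⟨fun h1 => hxy (cls_eq_iff.mp h1).symm, mem_image_of_mem _ (mem_univ y)⟩, rfl⟩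

/-- `σ'` arises from `σ` by merging the cycles of `x` and `y` -/
def Mg (σ σ' : Perm X) (x y : X) : Prop :=
  ∀ u v, σ'.SameCycle u v ↔ σ.SameCycle u v ∨
    ((σ.SameCycle x u ∨ σ.SameCycle y u) ∧ (σ.SameCycle x v ∨ σ.SameCycle y v))

theorem Mg.cls_in {σ σ' : Perm X} {x y u : X} (m : Mg σ σ' x y)
    (hu : σ.SameCycle x u ∨ σ.SameCycle y u) : cls σ' u = cls σ x ∪ cls σ y := by
  ext v
  rw [mem_union, mem_cls, mem_cls, mem_cls, m]
  constructor
  · rintro (h | h)
    · exact hu.imp (fun h1 => h1.trans h) (fun h1 => h1.trans h)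
    · exact h.2
  · exact fun h => Or.inr ⟨hu, h⟩

theorem Mg.cls_out {σ σ' : Perm X} {x y u : X} (m : Mg σ σ' x y)
    (hu : ¬ (σ.SameCycle x u ∨ σ.SameCycle y u)) : cls σ' u = cls σ u := by
  ext v
  rw [mem_cls, mem_cls, m]
  exact ⟨fun h => h.resolve_right fun h1 => hu h1.1, Or.inl⟩

theorem Mg.len_in {σ σ' : Perm X} {x y u : X} (m : Mg σ σ' x y) (h : ¬ σ.SameCycle x y)
    (hu : σ.SameCycle x u ∨ σ.SameCycle y u) : len σ' u = len σ x + len σ y := by
  rw [len, m.cls_in hu, card_union_of_disjoint, len, len]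
  rw [disjoint_left]
  intro v h1 h2
  exact h ((mem_cls.mp h1).trans (mem_cls.mp h2).symm)

theorem Mg.len_out {σ σ' : Perm X} {x y u : X} (m : Mg σ σ' x y)
    (hu : ¬ (σ.SameCycle x u ∨ σ.SameCycle y u)) : len σ' u = len σ u := by
  rw [len, m.cls_out hu, len]

theorem Mg.parts {σ σ' : Perm X} {x y : X} (m : Mg σ σ' x y) (h : ¬ σ.SameCycle x y)
    {R : Multiset ℕ} (hR : parts σ = len σ x ::ₘ len σ y ::ₘ R) :
    parts σ' = (len σ x + len σ y) ::ₘ R := by
  have hx : σ.SameCycle x x ∨ σ.SameCycle y x := Or.inl (SameCycle.refl _ _)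
  have hy : cls σ y ∈ (univ.image (cls σ)).erase (cls σ x) :=
    mem_erase.mpr ⟨fun h1 => h (cls_eq_iff.mp h1).symm, mem_image_of_mem _ (mem_univ y)⟩
  rw [parts_eq_cons σ x, Multiset.cons_inj_right, ← Multiset.cons_erase (mem_val.mpr hy),
    Multiset.map_cons, len, Multiset.cons_inj_right, ← erase_val] at hR
  rw [parts_eq_cons σ' x, m.len_in h hx, ← hR]
  congr 3
  ext s
  simp only [mem_erase, mem_image, mem_univ, true_and]
  constructor
  · rintro ⟨h1, u, rfl⟩
    have hu : ¬ (σ.SameCycle x u ∨ σ.SameCycle y u) := fun hu =>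
      h1 ((m.cls_in hu).trans (m.cls_in hx).symm)
    rw [m.cls_out hu]
    exact ⟨fun h2 => hu (Or.inr (cls_eq_iff.mp h2).symm),
      fun h2 => hu (Or.inl (cls_eq_iff.mp h2).symm), u, rfl⟩
  · rintro ⟨h1, h2, u, rfl⟩
    have hu : ¬ (σ.SameCycle x u ∨ σ.SameCycle y u) := fun hu =>
      hu.elim (fun h3 => h2 (cls_eq_iff.mpr h3).symm) (fun h3 => h1 (cls_eq_iff.mpr h3).symm)
    refine ⟨fun h3 => hu ?_, u, m.cls_out hu⟩
    have h4 : u ∈ cls σ' x := h3 ▸ mem_cls.mpr (SameCycle.refl _ _)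
    rw [m.cls_in hx, mem_union, mem_cls, mem_cls] at h4
    exact h4

/-- following `σ` from `u` one reaches `x` or `y` inside a cycle of `swap x y * σ` -/
theorem reach (σ : Perm X) (x y : X) (k : ℕ) : ∀ u, ((σ ^ k) u = x ∨ (σ ^ k) u = y) →
    (swap x y * σ).SameCycle u x ∨ (swap x y * σ).SameCycle u y := by
  induction k with
  | zero =>
    rintro u (rfl | rfl)
    · exact Or.inl (SameCycle.refl _ _)
    · exact Or.inr (SameCycle.refl _ _)
  | succ k ih =>
    intro u hu
    have h0 : (swap x y * σ).SameCycle u (swap x y (σ u)) :=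
      sameCycle_apply_right.mpr (SameCycle.refl _ _)
    by_cases h1 : σ u = x
    · rw [h1, swap_apply_left] at h0; exact Or.inr h0
    by_cases h2 : σ u = y
    · rw [h2, swap_apply_right] at h0; exact Or.inl h0
    rw [swap_apply_of_ne_of_ne h1 h2] at h0
    exact (ih (σ u) (by simpa [pow_succ] using hu)).imp h0.trans h0.trans

theorem reach_one (σ : Perm X) {x y : X} (h : ¬ σ.SameCycle x y) (k : ℕ) :
    ∀ u, (σ ^ (k + 1)) u = x → (swap x y * σ).SameCycle u y := by
  induction k with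
  | zero =>
    intro u hu
    have h0 : (swap x y * σ).SameCycle u (swap x y (σ u)) :=
      sameCycle_apply_right.mpr (SameCycle.refl _ _)
    rw [show σ u = x by simpa using hu, swap_apply_left] at h0
    exact h0
  | succ k ih =>
    intro u hu
    have h0 : (swap x y * σ).SameCycle u (swap x y (σ u)) :=
      sameCycle_apply_right.mpr (SameCycle.refl _ _)
    have hu' : (σ ^ (k + 1)) (σ u) = x := by simpa [pow_succ] using hu
    by_cases h1 : σ u = x
    · rw [h1, swap_apply_left] at h0; exact h0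
    have h2 : σ u ≠ y := by
      rintro rfl
      exact h (SameCycle.symm ⟨(k + 1 : ℕ), by rw [zpow_natCast, hu']⟩)
    rw [swap_apply_of_ne_of_ne h1 h2] at h0
    exact h0.trans (ih _ hu')

theorem sameCycle_ind {σ : Perm X} {r : X → Prop} (h : ∀ u, r u → r (σ u)) {u v : X}
    (huv : σ.SameCycle u v) (hu : r u) : r v := by
  obtain ⟨k, -, rfl⟩ := huv.exists_pow_eq'
  induction k with
  | zero => exact hu
  | succ k ih => rw [pow_succ', Perm.mul_apply]; exact h _ (ih ⟨k, by simp⟩)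

theorem mg_left {σ : Perm X} {x y : X} (h : ¬ σ.SameCycle x y) : Mg σ (swap x y * σ) x y := by
  have hx : ∀ u, σ.SameCycle x u → (swap x y * σ).SameCycle u y := fun u hu => by
    obtain ⟨k, hk, -, hk'⟩ := hu.symm.exists_pow_eq''
    obtain ⟨k, rfl⟩ := Nat.exists_eq_succ_of_ne_zero hk.ne'
    exact reach_one σ h k u hk'
  have hy : ∀ u, σ.SameCycle y u → (swap x y * σ).SameCycle u x := fun u hu => by
    obtain ⟨k, hk, -, hk'⟩ := hu.symm.exists_pow_eq''
    obtain ⟨k, rfl⟩ := Nat.exists_eq_succ_of_ne_zero hk.ne'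
    rw [swap_comm]
    exact reach_one σ (fun h1 => h h1.symm) k u hk'
  have hJ : ∀ u, σ.SameCycle x u ∨ σ.SameCycle y u → (swap x y * σ).SameCycle u y :=
    fun u hu => hu.elim (hx u) fun h1 => (hy u h1).trans (hx x (SameCycle.refl _ _))
  intro u v
  constructor
  · intro huv
    refine sameCycle_ind (σ := swap x y * σ) (r := fun w => σ.SameCycle u w ∨
      ((σ.SameCycle x u ∨ σ.SameCycle y u) ∧ (σ.SameCycle x w ∨ σ.SameCycle y w))) ?_ huv
      (Or.inl (SameCycle.refl _ _))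
    intro w hw
    rw [Perm.mul_apply]
    have hw' : σ.SameCycle u (σ w) ∨ ((σ.SameCycle x u ∨ σ.SameCycle y u) ∧
        (σ.SameCycle x (σ w) ∨ σ.SameCycle y (σ w))) := by
      simpa only [sameCycle_apply_right] using hw
    by_cases h1 : σ w = x
    · rw [h1] at hw'
      rw [h1, swap_apply_left]
      exact Or.inr ⟨hw'.elim (fun h2 => Or.inl h2.symm) (fun h2 => h2.1),
        Or.inr (SameCycle.refl _ _)⟩
    by_cases h2 : σ w = y
    · rw [h2] at hw'
      rw [h2, swap_apply_right]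
      exact Or.inr ⟨hw'.elim (fun h2 => Or.inr h2.symm) (fun h2 => h2.1),
        Or.inl (SameCycle.refl _ _)⟩
    rwa [swap_apply_of_ne_of_ne h1 h2]
  · rintro (huv | ⟨hu, hv⟩)
    · by_cases hu : σ.SameCycle x u ∨ σ.SameCycle y u
      · exact (hJ u hu).trans (hJ v (hu.imp (·.trans huv) (·.trans huv))).symm
      · refine (sameCycle_ind (σ := σ) (r := fun w => σ.SameCycle u w ∧
          (swap x y * σ).SameCycle u w) ?_ huv ⟨SameCycle.refl _ _, SameCycle.refl _ _⟩).2
        rintro w ⟨h1, h2⟩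
        have h3 : σ.SameCycle u (σ w) := sameCycle_apply_right.mpr h1
        refine ⟨h3, ?_⟩
        have h4 : (swap x y * σ) w = σ w := by
          rw [Perm.mul_apply, swap_apply_of_ne_of_ne]
          · exact fun h5 => hu (Or.inl (h5 ▸ h3).symm)
          · exact fun h5 => hu (Or.inr (h5 ▸ h3).symm)
        rw [← h4]
        exact sameCycle_apply_right.mpr h2
    · exact (hJ u hu).trans (hJ v hv).symm

theorem mg_right {σ : Perm X} {x y : X} (h : ¬ σ.SameCycle x y) : Mg σ (σ * swap x y) x y := by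
  have h1 : ¬ σ.SameCycle (σ x) (σ y) := by
    rwa [sameCycle_apply_left, sameCycle_apply_right]
  have h2 := mg_left h1
  rw [mul_swap_eq_swap_mul]
  intro u v
  rw [h2]
  simp only [sameCycle_apply_left]

def Full (σ : Perm X) : Prop := ∀ u v, σ.SameCycle u v

theorem Full.parts {σ : Perm X} (h : Full σ) (x : X) : parts σ = {Fintype.card X} := by
  have h1 : ∀ u, cls σ u = univ := fun u => eq_univ_of_forall fun v => mem_cls.mpr (h u v)
  have h2 : univ.image (cls σ) = {univ} := by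
    ext s
    rw [mem_image, mem_singleton]
    exact ⟨fun ⟨u, _, hu⟩ => hu ▸ h1 u, fun hs => ⟨x, mem_univ _, hs ▸ h1 x⟩⟩
  rw [MP_bdfe25_al.parts, h2]
  simp

theorem Full.sign {σ : Perm X} (h : Full σ) {x y : X} (hxy : x ≠ y) :
    Perm.sign σ = -(-1) ^ Fintype.card X := by
  have h1 : ∀ u, σ u ≠ u := by
    intro u hu
    have h2 : ∀ v, v = u := fun v =>
      sameCycle_ind (σ := σ) (r := fun w => w = u) (fun w hw => hw ▸ hu) (h u v) rfl
    exact hxy ((h2 x).trans (h2 y).symm)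
  have h3 : σ.IsCycle := ⟨x, h1 x, fun v _ => h x v⟩
  rw [h3.sign, show σ.support = univ from eq_univ_of_forall fun u => mem_support.mpr (h1 u),
    card_univ]

theorem Full.split {σ : Perm X} (h : Full σ) {x y : X} (hxy : x ≠ y) :
    (∀ u, (swap x y * σ).SameCycle x u ∨ (swap x y * σ).SameCycle y u) ∧
      ¬ (swap x y * σ).SameCycle x y := by
  have h1 : ∀ u, (swap x y * σ).SameCycle x u ∨ (swap x y * σ).SameCycle y u := fun u => by
    obtain ⟨k, -, hk⟩ := (h u x).exists_pow_eq'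
    exact (reach σ x y k u (Or.inl hk)).imp SameCycle.symm SameCycle.symm
  refine ⟨h1, fun h2 => ?_⟩
  have h3 : ∀ u, (swap x y * σ).SameCycle x u := fun u => (h1 u).elim id h2.trans
  have h4 : Full (swap x y * σ) := fun u v => (h3 u).symm.trans (h3 v)
  have h5 := h4.sign hxy
  rw [Perm.sign_mul, sign_swap hxy, h.sign hxy] at h5
  generalize (-(-1) ^ Fintype.card X : ℤˣ) = e at h5
  rcases Int.units_eq_one_or e with rfl | rfl <;> simp at h5

theorem Full.three {σ : Perm X} (h : Full σ) {x y : X} (hxy : x ≠ y) (z : X) :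
    ∃ w, (w = x ∨ w = y) ∧ Full (swap w z * (swap x y * σ)) := by
  obtain ⟨h1, h2⟩ := h.split hxy
  rcases h1 z with hz | hz
  · have h3 : ¬ (swap x y * σ).SameCycle y z := fun h4 => h2 (hz.trans h4.symm)
    have h5 : ∀ u, (swap x y * σ).SameCycle y u ∨ (swap x y * σ).SameCycle z u :=
      fun u => (h1 u).symm.imp id hz.symm.trans
    exact ⟨y, Or.inr rfl, fun u v => (mg_left h3 u v).mpr (Or.inr ⟨h5 u, h5 v⟩)⟩
  · have h3 : ¬ (swap x y * σ).SameCycle x z := fun h4 => h2 (h4.trans hz.symm)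
    have h5 : ∀ u, (swap x y * σ).SameCycle x u ∨ (swap x y * σ).SameCycle z u :=
      fun u => (h1 u).imp id hz.symm.trans
    exact ⟨x, Or.inl rfl, fun u v => (mg_left h3 u v).mpr (Or.inr ⟨h5 u, h5 v⟩)⟩

theorem cls_inv (σ : Perm X) : cls σ⁻¹ = cls σ := by
  funext x
  ext y
  rw [mem_cls, mem_cls, sameCycle_inv]

theorem len_inv (σ : Perm X) (x : X) : len σ⁻¹ x = len σ x := by rw [len, cls_inv, len]

theorem parts_inv (σ : Perm X) : parts σ⁻¹ = parts σ := by rw [parts, cls_inv, parts]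

section sum

variable {Y : Type} [Fintype Y] [DecidableEq Y] (σ : Perm X) (τ : Perm Y)

theorem sumCongr_zpow (i : ℤ) : (Perm.sumCongr σ τ) ^ i = Perm.sumCongr (σ ^ i) (τ ^ i) :=
  (map_zpow (sumCongrHom X Y) (σ, τ) i).symm

theorem same_inl_inl {x y : X} :
    (Perm.sumCongr σ τ).SameCycle (Sum.inl x) (Sum.inl y) ↔ σ.SameCycle x y := by
  simp [SameCycle, sumCongr_zpow]

theorem same_inr_inr {x y : Y} :
    (Perm.sumCongr σ τ).SameCycle (Sum.inr x) (Sum.inr y) ↔ τ.SameCycle x y := by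
  simp [SameCycle, sumCongr_zpow]

theorem not_same_inl_inr {x : X} {y : Y} :
    ¬ (Perm.sumCongr σ τ).SameCycle (Sum.inl x) (Sum.inr y) := by
  simp [SameCycle, sumCongr_zpow]

theorem cls_inl (x : X) :
    cls (Perm.sumCongr σ τ) (Sum.inl x) = (cls σ x).map Function.Embedding.inl := by
  ext z
  rcases z with z | z
  · simp [mem_cls, same_inl_inl]
  · simp [mem_cls, not_same_inl_inr]

theorem cls_inr (y : Y) :
    cls (Perm.sumCongr σ τ) (Sum.inr y) = (cls τ y).map Function.Embedding.inr := by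
  ext z
  rcases z with z | z
  · simpa [mem_cls] using fun h : (Perm.sumCongr σ τ).SameCycle (Sum.inr y) (Sum.inl z) =>
      not_same_inl_inr σ τ h.symm
  · simp [mem_cls, same_inr_inr]

theorem len_inl (x : X) : len (Perm.sumCongr σ τ) (Sum.inl x) = len σ x := by
  rw [len, cls_inl, card_map, len]

theorem len_inr (y : Y) : len (Perm.sumCongr σ τ) (Sum.inr y) = len τ y := by
  rw [len, cls_inr, card_map, len]

theorem parts_sum : parts (Perm.sumCongr σ τ) = parts σ + parts τ := by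
  let f : Finset X ↪ Finset (X ⊕ Y) :=
    ⟨fun s => s.map Function.Embedding.inl, map_injective _⟩
  let g : Finset Y ↪ Finset (X ⊕ Y) :=
    ⟨fun s => s.map Function.Embedding.inr, map_injective _⟩
  have hd : Disjoint ((univ.image (cls σ)).map f) ((univ.image (cls τ)).map g) := by
    rw [disjoint_left]
    intro s h1 h2
    obtain ⟨s1, h3, rfl⟩ := mem_map.mp h1
    obtain ⟨x, -, rfl⟩ := mem_image.mp h3
    obtain ⟨s2, -, h4⟩ := mem_map.mp h2
    have h5 : Sum.inl x ∈ g s2 := by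
      rw [h4]
      exact mem_map_of_mem _ (mem_cls.mpr (SameCycle.refl _ _))
    obtain ⟨y, -, h6⟩ := mem_map.mp h5
    exact Sum.inr_ne_inl h6
  have h : univ.image (cls (Perm.sumCongr σ τ)) =
      ((univ.image (cls σ)).map f).disjUnion ((univ.image (cls τ)).map g) hd := by
    ext s
    rw [mem_disjUnion, mem_image, mem_map, mem_map]
    constructor
    · rintro ⟨z | z, -, rfl⟩
      · exact Or.inl ⟨_, mem_image_of_mem _ (mem_univ z), (cls_inl σ τ z).symm⟩
      · exact Or.inr ⟨_, mem_image_of_mem _ (mem_univ z), (cls_inr σ τ z).symm⟩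
    · rintro (⟨s, hs, rfl⟩ | ⟨s, hs, rfl⟩)
      · obtain ⟨z, -, rfl⟩ := mem_image.mp hs
        exact ⟨Sum.inl z, mem_univ _, cls_inl σ τ z⟩
      · obtain ⟨z, -, rfl⟩ := mem_image.mp hs
        exact ⟨Sum.inr z, mem_univ _, cls_inr σ τ z⟩
  rw [parts, h, disjUnion_val, Multiset.map_add, map_val, map_val, Multiset.map_map,
    Multiset.map_map, parts, parts]
  congr 1
  · exact Multiset.map_congr rfl fun s _ => card_map _
  · exact Multiset.map_congr rfl fun s _ => card_map _

end sum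

end Pool.Agent.Lib.MP_bdfe25_al
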