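import Pool.Agent.Lib.MP_bdfe25_al.Cyc

set_option autoImplicit false
set_option linter.unusedSectionVars false

open Equiv Equiv.Perm Finset

namespace Pool.Agent.Lib.MP_bdfe25_al

variable {X : Type} [Fintype X] [DecidableEq X]

/-- cycle type together with the sign it forces -/
def Ty (σ : Perm X) (A : Multiset ℕ) : Prop :=
  parts σ = A ∧ Perm.sign σ = (-1) ^ (A.sum + Multiset.card A)

theorem Ty.inv {σ : Perm X} {A : Multiset ℕ} (h : Ty σ A) : Ty σ⁻¹ A :=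
  ⟨(parts_inv σ).trans h.1, (Perm.sign_inv σ).trans h.2⟩

theorem Ty.sum {Y : Type} [Fintype Y] [DecidableEq Y] {σ : Perm X} {τ : Perm Y}
    {A B : Multiset ℕ} (h : Ty σ A) (h' : Ty τ B) : Ty (Perm.sumCongr σ τ) (A + B) := by
  refine ⟨by rw [parts_sum, h.1, h'.1], ?_⟩
  rw [sign_sumCongr, h.2, h'.2, ← pow_add, Multiset.sum_add, Multiset.card_add]
  congr 1
  ring

theorem full_unit (σ : Perm Unit) : Full σ := fun _ _ => SameCycle.refl _ _

theorem ty_unit : Ty (1 : Perm Unit) {1} :=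
  ⟨(full_unit 1).parts (), by simp⟩

theorem len_unit (u : Unit) : len (1 : Perm Unit) u = 1 := by
  have h := len_mem (1 : Perm Unit) u
  rw [ty_unit.1] at h
  exact Multiset.mem_singleton.mp h

theorem Mg.ty {σ σ' : Perm X} {x y : X} (m : Mg σ σ' x y) (h : ¬ σ.SameCycle x y)
    (hs : Perm.sign σ' = -Perm.sign σ) {a b : ℕ} {R : Multiset ℕ} (hT : Ty σ (a ::ₘ b ::ₘ R))
    (ha : len σ x = a) (hb : len σ y = b) : Ty σ' ((a + b) ::ₘ R) := by
  subst ha hb
  refine ⟨m.parts h hT.1, ?_⟩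
  rw [hs, hT.2]
  simp only [Multiset.sum_cons, Multiset.card_cons]
  rw [show len σ x + (len σ y + R.sum) + (Multiset.card R + 1 + 1) =
    len σ x + len σ y + R.sum + (Multiset.card R + 1) + 1 by ring, pow_succ]
  simp

theorem ne_of_not_same {σ : Perm X} {x y : X} (h : ¬ σ.SameCycle x y) : x ≠ y := by
  rintro rfl
  exact h (SameCycle.refl _ _)

theorem ty_left {σ : Perm X} {x y : X} (h : ¬ σ.SameCycle x y) {a b : ℕ} {R : Multiset ℕ}
    (hT : Ty σ (a ::ₘ b ::ₘ R)) (ha : len σ x = a) (hb : len σ y = b) :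
    Ty (swap x y * σ) ((a + b) ::ₘ R) :=
  (mg_left h).ty h (by rw [Perm.sign_mul, sign_swap (ne_of_not_same h)]; simp) hT ha hb

theorem ty_right {σ : Perm X} {x y : X} (h : ¬ σ.SameCycle x y) {a b : ℕ} {R : Multiset ℕ}
    (hT : Ty σ (a ::ₘ b ::ₘ R)) (ha : len σ x = a) (hb : len σ y = b) :
    Ty (σ * swap x y) ((a + b) ::ₘ R) :=
  (mg_right h).ty h (by rw [Perm.sign_mul, sign_swap (ne_of_not_same h)]; simp) hT ha hb

theorem Mg.not_same {σ σ' : Perm X} {x y u v : X} (m : Mg σ σ' x y) (h : ¬ σ.SameCycle u v)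
    (hu : ¬ (σ.SameCycle x u ∨ σ.SameCycle y u)) : ¬ σ'.SameCycle u v := fun h1 =>
  ((m u v).mp h1).elim h fun h2 => hu h2.1

theorem pick2 {σ : Perm X} {x y : X} {c : ℕ} {R : Multiset ℕ} (hxy : ¬ σ.SameCycle x y)
    (h : parts σ = len σ x ::ₘ len σ y ::ₘ c ::ₘ R) :
    ∃ z, ¬ σ.SameCycle x z ∧ ¬ σ.SameCycle y z ∧ len σ z = c := by
  have m := mg_left hxy
  have hx : σ.SameCycle x x ∨ σ.SameCycle y x := Or.inl (SameCycle.refl _ _)
  have h1 := m.parts hxy h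
  rw [← m.len_in hxy hx] at h1
  obtain ⟨z, h2, h3⟩ := pick h1
  have h4 : ¬ (σ.SameCycle x z ∨ σ.SameCycle y z) := fun h5 => h2 ((m x z).mpr (Or.inr ⟨hx, h5⟩))
  exact ⟨z, fun h5 => h4 (Or.inl h5), fun h5 => h4 (Or.inr h5), (m.len_out h4).symm.trans h3⟩

/-- two permutations of the given types whose product is one cycle, with a point on the two
marked cycles -/
def FC (α : ℕ) (A : Multiset ℕ) (β : ℕ) (B : Multiset ℕ) : Prop :=
  ∃ (X : Type) (_ : Fintype X) (_ : DecidableEq X) (σ τ : Perm X) (x : X),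
    Ty σ (α ::ₘ A) ∧ Ty τ (β ::ₘ B) ∧ Full (σ * τ) ∧ len σ x = α ∧ len τ x = β

theorem FC.symm {α β : ℕ} {A B : Multiset ℕ} (h : FC α A β B) : FC β B α A := by
  obtain ⟨X, _, _, σ, τ, x, h1, h2, h3, h4, h5⟩ := h
  refine ⟨X, _, _, τ⁻¹, σ⁻¹, x, h2.inv, h1.inv, fun u v => ?_, (len_inv _ _).trans h5,
    (len_inv _ _).trans h4⟩
  rw [← mul_inv_rev, sameCycle_inv]
  exact h3 u v

theorem fc_one : FC 1 0 1 0 :=
  ⟨Unit, _, _, 1, 1, (), ty_unit, ty_unit, full_unit _, len_unit _, len_unit _⟩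

theorem leaf_full {σ τ : Perm X} (h : Full (σ * τ)) (y : X) :
    Full (swap (Sum.inl y) (Sum.inr ()) * Perm.sumCongr σ (1 : Perm Unit) *
      Perm.sumCongr τ (1 : Perm Unit)) := by
  rw [mul_assoc, Perm.sumCongr_mul]
  have h1 : ∀ u, (Perm.sumCongr (σ * τ) (1 * 1 : Perm Unit)).SameCycle (Sum.inl y) u ∨
      (Perm.sumCongr (σ * τ) (1 * 1 : Perm Unit)).SameCycle (Sum.inr ()) u := by
    rintro (u | u)
    · exact Or.inl ((same_inl_inl _ _).mpr (h y u))
    · exact Or.inr (SameCycle.refl _ _)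
  exact fun u v => (mg_left (not_same_inl_inr _ _) u v).mpr (Or.inr ⟨h1 u, h1 v⟩)

theorem cons_add_one (a : ℕ) (A : Multiset ℕ) : (a ::ₘ A) + {1} = a ::ₘ 1 ::ₘ A := by
  rw [Multiset.cons_add, add_comm, Multiset.singleton_add]

theorem FC.leaf1 {α β : ℕ} {A B : Multiset ℕ} (h : FC α A β B) : FC (α + 1) A β (1 ::ₘ B) := by
  obtain ⟨X, _, _, σ, τ, x, h1, h2, h3, h4, h5⟩ := h
  have hn := not_same_inl_inr σ (1 : Perm Unit) (x := x) (y := ())
  have a1 := (len_inl σ (1 : Perm Unit) x).trans h4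
  have a2 := (len_inr σ (1 : Perm Unit) ()).trans (len_unit _)
  refine ⟨X ⊕ Unit, _, _, _, _, Sum.inl x, ?_, ?_, leaf_full h3 x, ?_, (len_inl _ _ _).trans h5⟩
  · exact ty_left hn (cons_add_one α A ▸ h1.sum ty_unit) a1 a2
  · exact cons_add_one β B ▸ h2.sum ty_unit
  · rw [(mg_left hn).len_in hn (Or.inl (SameCycle.refl _ _)), a1, a2]

theorem FC.leaf2 {α β r : ℕ} {A B : Multiset ℕ} (h : FC α (r ::ₘ A) β B) :
    FC α ((r + 1) ::ₘ A) β (1 ::ₘ B) := by
  obtain ⟨X, _, _, σ, τ, x, h1, h2, h3, h4, h5⟩ := h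
  obtain ⟨y, hy, hr⟩ := pick (h4 ▸ h1.1)
  have hn := not_same_inl_inr σ (1 : Perm Unit) (x := y) (y := ())
  have a1 := (len_inl σ (1 : Perm Unit) y).trans hr
  have a2 := (len_inr σ (1 : Perm Unit) ()).trans (len_unit _)
  refine ⟨X ⊕ Unit, _, _, _, _, Sum.inl x, ?_, ?_, leaf_full h3 y, ?_, (len_inl _ _ _).trans h5⟩
  · rw [Multiset.cons_swap] at h1 ⊢
    exact ty_left hn (cons_add_one r (α ::ₘ A) ▸ h1.sum ty_unit) a1 a2
  · exact cons_add_one β B ▸ h2.sum ty_unit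
  · rw [(mg_left hn).len_out, len_inl, h4]
    rintro (h6 | h6)
    · exact hy ((same_inl_inl _ _).mp h6).symm
    · exact not_same_inl_inr _ _ h6.symm

theorem or_same (σ : Perm X) {x y w : X} (hw : w = x ∨ w = y) :
    σ.SameCycle x w ∨ σ.SameCycle y w := by
  rcases hw with rfl | rfl
  · exact Or.inl (SameCycle.refl _ _)
  · exact Or.inr (SameCycle.refl _ _)

theorem FC.genus1 {α β p q : ℕ} {A B : Multiset ℕ} (h : FC α (p ::ₘ q ::ₘ A) β B) :
    FC (α + p + q) A β B := by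
  obtain ⟨X, _, _, σ, τ, x, h1, h2, h3, h4, h5⟩ := h
  obtain ⟨y, hy, hp⟩ := pick (h4 ▸ h1.1)
  have m := mg_left hy
  have t1 := ty_left hy h1 h4 hp
  have l1 : ∀ w, w = x ∨ w = y → len (swap x y * σ) w = α + p := fun w hw => by
    rw [m.len_in hy (or_same σ hw),
      h4, hp]
  obtain ⟨z, hz, hq⟩ := pick ((l1 x (Or.inl rfl)) ▸ t1.1)
  obtain ⟨w, hw, hF⟩ := h3.three (ne_of_not_same hy) z
  have hxw : (swap x y * σ).SameCycle w x := (m w x).mpr (Or.inr
    ⟨or_same σ hw, Or.inl (SameCycle.refl _ _)⟩)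
  have hwz : ¬ (swap x y * σ).SameCycle w z := fun h => hz (hxw.symm.trans h)
  refine ⟨X, _, _, swap w z * (swap x y * σ), τ, x, ty_left hwz t1 (l1 w hw) hq, h2, ?_, ?_, h5⟩
  · rwa [mul_assoc, mul_assoc]
  · rw [(mg_left hwz).len_in hwz (Or.inl hxw), l1 w hw, hq]

theorem FC.genus2 {α β r p q : ℕ} {A B : Multiset ℕ} (h : FC α (r ::ₘ p ::ₘ q ::ₘ A) β B) :
    FC α ((r + p + q) ::ₘ A) β B := by
  obtain ⟨X, _, _, σ, τ, x, h1, h2, h3, h4, h5⟩ := h
  obtain ⟨u, hu, hr⟩ := pick (h4 ▸ h1.1)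
  obtain ⟨v, hv, huv, hp⟩ := pick2 hu (h4 ▸ hr ▸ h1.1)
  have m := mg_left huv
  have t0 : Ty σ (r ::ₘ p ::ₘ α ::ₘ q ::ₘ A) := by
    rwa [Multiset.cons_swap p, Multiset.cons_swap r]
  have t1 := ty_left huv t0 hr hp
  have l1 : ∀ w, w = u ∨ w = v → len (swap u v * σ) w = r + p := fun w hw => by
    rw [m.len_in huv (or_same σ hw),
      hr, hp]
  have hx : ¬ (σ.SameCycle u x ∨ σ.SameCycle v x) := fun h =>
    h.elim (fun h => hu h.symm) (fun h => hv h.symm)
  have l2 : len (swap u v * σ) x = α := (m.len_out hx).trans h4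
  have hux : ¬ (swap u v * σ).SameCycle u x := fun h => m.not_same hu hx h.symm
  obtain ⟨z, hz, hxz, hq⟩ := pick2 hux ((l1 u (Or.inl rfl)) ▸ l2 ▸ t1.1)
  obtain ⟨w, hw, hF⟩ := h3.three (ne_of_not_same huv) z
  have huw : (swap u v * σ).SameCycle w u := (m w u).mpr (Or.inr
    ⟨or_same σ hw, Or.inl (SameCycle.refl _ _)⟩)
  have hwz : ¬ (swap u v * σ).SameCycle w z := fun h => hz (huw.symm.trans h)
  refine ⟨X, _, _, swap w z * (swap u v * σ), τ, x, ?_, h2, ?_, ?_, h5⟩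
  · rw [Multiset.cons_swap]
    rw [Multiset.cons_swap α] at t1
    exact ty_left hwz t1 (l1 w hw) hq
  · rwa [mul_assoc, mul_assoc]
  · rw [(mg_left hwz).len_out, l2]
    rintro (h6 | h6)
    · exact hux (huw.symm.trans h6)
    · exact hxz h6.symm

theorem two_mul_card_le {A : Multiset ℕ} (h : ∀ a ∈ A, 2 ≤ a) : 2 * Multiset.card A ≤ A.sum := by
  simpa [mul_comm] using Multiset.card_nsmul_le_sum h

theorem sum_le_card {A : Multiset ℕ} {k : ℕ} (h : ∀ a ∈ A, a ≤ k) :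
    A.sum ≤ k * Multiset.card A := by
  simpa [mul_comm] using Multiset.sum_le_card_nsmul A k h

theorem card_le_sum' {A : Multiset ℕ} (h : ∀ a ∈ A, 1 ≤ a) : Multiset.card A ≤ A.sum := by
  simpa using Multiset.card_nsmul_le_sum h

/-- the data of the full cycle theorem -/
structure Dat (N g α : ℕ) (A : Multiset ℕ) (β : ℕ) (B : Multiset ℕ) : Prop where
  a1 : 1 ≤ α
  b1 : 1 ≤ β
  pa : ∀ a ∈ A, 1 ≤ a
  pb : ∀ b ∈ B, 1 ≤ b
  sa : α + A.sum = N
  sb : β + B.sum = N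
  cd : Multiset.card A + Multiset.card B + 1 + 2 * g = N
  ne : α = 1 → β = 1 → N = 1

theorem Dat.symm {N g α β : ℕ} {A B : Multiset ℕ} (d : Dat N g α A β B) : Dat N g β B α A :=
  ⟨d.b1, d.a1, d.pb, d.pa, d.sb, d.sa, by have := d.cd; omega, fun h h' => d.ne h' h⟩

theorem tree_step {N : ℕ} (ih : ∀ α A β B, Dat N 0 α A β B → FC α A β B) {α β : ℕ}
    {A B : Multiset ℕ} (d : Dat (N + 1) 0 α A β (1 ::ₘ B)) : FC α A β (1 ::ₘ B) := by
  obtain ⟨a1, b1, pa, pb, sa, sb, cd, ne⟩ := d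
  have pb' : ∀ b ∈ B, 1 ≤ b := fun b hb => pb b (Multiset.mem_cons_of_mem hb)
  rw [Multiset.sum_cons] at sb
  rw [Multiset.card_cons] at cd
  by_cases h : ∃ r ∈ A, 2 ≤ r
  · obtain ⟨r, hr, h2⟩ := h
    obtain ⟨A, rfl⟩ := Multiset.exists_cons_of_mem hr
    obtain ⟨r, rfl⟩ : ∃ k, r = k + 1 := ⟨r - 1, by omega⟩
    rw [Multiset.sum_cons] at sa
    rw [Multiset.card_cons] at cd
    refine (ih α (r ::ₘ A) β B ⟨a1, b1, fun a ha => ?_, pb', ?_, by omega, ?_, ?_⟩).leaf2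
    · rcases Multiset.mem_cons.mp ha with rfl | ha
      · omega
      · exact pa a (Multiset.mem_cons_of_mem ha)
    · rw [Multiset.sum_cons]; omega
    · rw [Multiset.card_cons]; omega
    · intro h3 h4
      have := ne h3 h4
      omega
  · have h1 := sum_le_card (A := A) (k := 1) fun a ha => by
      by_contra h2
      exact h ⟨a, ha, by omega⟩
    have h2 := card_le_sum' pb'
    have h3 := card_le_sum' pa
    obtain ⟨α, rfl⟩ : ∃ k, α = k + 1 := ⟨α - 1, by omega⟩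
    refine (ih α A β B ⟨by omega, b1, pa, pb', by omega, by omega, by omega, ?_⟩).leaf1
    intro h4 h5
    have h6 : Multiset.card B = 0 := by omega
    rw [Multiset.card_eq_zero.mp h6, Multiset.sum_zero] at sb
    omega

theorem fc_tree (N : ℕ) : ∀ α A β B, Dat N 0 α A β B → FC α A β B := by
  induction N with
  | zero => intro α A β B d; have := d.cd; omega
  | succ N ih =>
    intro α A β B d
    by_cases hB : 1 ∈ B
    · obtain ⟨B, rfl⟩ := Multiset.exists_cons_of_mem hB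
      exact tree_step ih d
    by_cases hA : 1 ∈ A
    · obtain ⟨A, rfl⟩ := Multiset.exists_cons_of_mem hA
      exact (tree_step ih d.symm).symm
    obtain ⟨a1, b1, pa, pb, sa, sb, cd, ne⟩ := d
    have h1 := two_mul_card_le (A := A) fun a ha => by
      have := pa a ha
      have : a ≠ 1 := fun h => hA (h ▸ ha)
      omega
    have h2 := two_mul_card_le (A := B) fun a ha => by
      have := pb a ha
      have : a ≠ 1 := fun h => hB (h ▸ ha)
      omega
    obtain rfl : α = 1 := by omega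
    obtain rfl : β = 1 := by omega
    have h3 := ne rfl rfl
    obtain rfl : A = 0 := Multiset.card_eq_zero.mp (by omega)
    obtain rfl : B = 0 := Multiset.card_eq_zero.mp (by omega)
    exact fc_one

theorem genus_step2 {N g : ℕ} (ih : ∀ α A β B, Dat N g α A β B → FC α A β B) {α β r : ℕ}
    {A B : Multiset ℕ} (d : Dat N (g + 1) α A β B) (hr : r ∈ A) (h3 : 3 ≤ r) : FC α A β B := by
  obtain ⟨A, rfl⟩ := Multiset.exists_cons_of_mem hr
  obtain ⟨r, rfl⟩ : ∃ k, r = k + 1 + 1 := ⟨r - 2, by omega⟩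
  obtain ⟨a1, b1, pa, pb, sa, sb, cd, ne⟩ := d
  refine (ih α (r ::ₘ 1 ::ₘ 1 ::ₘ A) β B ⟨a1, b1, fun a ha => ?_, pb, ?_, sb, ?_, ne⟩).genus2
  · simp only [Multiset.mem_cons] at ha
    rcases ha with rfl | rfl | rfl | ha
    · omega
    · rfl
    · rfl
    · exact pa a (Multiset.mem_cons_of_mem ha)
  · simp only [Multiset.sum_cons] at sa ⊢; omega
  · simp only [Multiset.card_cons] at cd ⊢; omega

theorem genus_step1 {N g : ℕ} (ih : ∀ α A β B, Dat N g α A β B → FC α A β B) {α β : ℕ}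
    {A B : Multiset ℕ} (d : Dat N (g + 1) α A β B) (h3 : 3 ≤ α) (h6 : 6 ≤ α + β) :
    FC α A β B := by
  obtain ⟨α, rfl⟩ : ∃ k, α = k + 1 + 1 := ⟨α - 2, by omega⟩
  obtain ⟨a1, b1, pa, pb, sa, sb, cd, ne⟩ := d
  refine (ih α (1 ::ₘ 1 ::ₘ A) β B ⟨by omega, b1, fun a ha => ?_, pb, ?_, sb, ?_,
    fun h1 h2 => by omega⟩).genus1
  · simp only [Multiset.mem_cons] at ha
    rcases ha with rfl | rfl | ha
    · rfl
    · rfl
    · exact pa a ha
  · simp only [Multiset.sum_cons]; omega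
  · simp only [Multiset.card_cons]; omega

/-- the full cycle theorem with a marked point -/
theorem fc_all (N g : ℕ) : ∀ α A β B, Dat N g α A β B → FC α A β B := by
  induction g with
  | zero => exact fc_tree N
  | succ g ih =>
    intro α A β B d
    by_cases hA : ∃ r ∈ A, 3 ≤ r
    · obtain ⟨r, hr, h3⟩ := hA
      exact genus_step2 ih d hr h3
    by_cases hB : ∃ r ∈ B, 3 ≤ r
    · obtain ⟨r, hr, h3⟩ := hB
      exact (genus_step2 ih d.symm hr h3).symm
    have h1 := sum_le_card (A := A) (k := 2) fun a ha => by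
      by_contra h2
      exact hA ⟨a, ha, by omega⟩
    have h2 := sum_le_card (A := B) (k := 2) fun a ha => by
      by_contra h2
      exact hB ⟨a, ha, by omega⟩
    have h3 := d.sa
    have h4 := d.sb
    have h5 := d.cd
    by_cases h : 3 ≤ α
    · exact genus_step1 ih d h (by omega)
    · exact (genus_step1 ih d.symm (by omega) (by omega)).symm

end Pool.Agent.Lib.MP_bdfe25_al
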