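import Mathlib

/-! Realisable triples of orders, with signs: symmetry, sums, monotonicity. -/

namespace Pool.Agent.Lib.MP_bdfe25_al

open Equiv Equiv.Perm

/-- Orders `a b c` and signs `e d` of `x`, `y` are realised in the symmetric group on `n` points. -/
def RS (n a b c : ℕ) (e d : ℤˣ) : Prop :=
  ∃ x y : Perm (Fin n), orderOf x = a ∧ orderOf y = b ∧ orderOf (x * y) = c ∧
    sign x = e ∧ sign y = d

/-- The triple `a b c` is realisable in the symmetric group on `n` points. -/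
def R (n a b c : ℕ) : Prop :=
  ∃ x y : Perm (Fin n), orderOf x = a ∧ orderOf y = b ∧ orderOf (x * y) = c

theorem R_iff {n a b c : ℕ} : R n a b c ↔ ∃ e d, RS n a b c e d :=
  ⟨fun ⟨x, y, h1, h2, h3⟩ => ⟨_, _, x, y, h1, h2, h3, rfl, rfl⟩,
    fun ⟨_, _, x, y, h1, h2, h3, _, _⟩ => ⟨x, y, h1, h2, h3⟩⟩

theorem RS.r {n a b c : ℕ} {e d : ℤˣ} (h : RS n a b c e d) : R n a b c := R_iff.2 ⟨e, d, h⟩

theorem RS.of_type {α : Type} [Fintype α] [DecidableEq α] {n a b c : ℕ} {e d : ℤˣ}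
    (hn : Fintype.card α = n) (x y : Perm α) (h1 : orderOf x = a) (h2 : orderOf y = b)
    (h3 : orderOf (x * y) = c) (h4 : sign x = e) (h5 : sign y = d) : RS n a b c e d := by
  let φ : α ≃ Fin n := Fintype.equivFinOfCardEq hn
  have key : ∀ f : Perm α, orderOf (φ.permCongr f) = orderOf f := fun f =>
    (φ.permCongrHom).orderOf_eq f
  refine ⟨φ.permCongr x, φ.permCongr y, by rw [key, h1], by rw [key, h2], ?_,
    by rw [sign_permCongr, h4], by rw [sign_permCongr, h5]⟩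
  have : φ.permCongr x * φ.permCongr y = φ.permCongr (x * y) := by
    ext v; simp
  rw [this, key, h3]

theorem RS.swap {n a b c : ℕ} {e d : ℤˣ} (h : RS n a b c e d) : RS n b a c d e := by
  obtain ⟨x, y, h1, h2, h3, h4, h5⟩ := h
  refine ⟨y⁻¹, x⁻¹, by simpa using h2, by simpa using h1, ?_, by simpa using h5,
    by simpa using h4⟩
  rw [← mul_inv_rev, orderOf_inv, h3]

theorem RS.rot {n a b c : ℕ} {e d : ℤˣ} (h : RS n a b c e d) : RS n b c a d (e * d) := by
  obtain ⟨x, y, h1, h2, h3, h4, h5⟩ := h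
  refine ⟨y, (x * y)⁻¹, h2, by rw [orderOf_inv, h3], ?_, h5, by simp [h4, h5, mul_comm]⟩
  have : y * (x * y)⁻¹ = x⁻¹ := by group
  rw [this, orderOf_inv, h1]

theorem RS.add {n m a b c a' b' c' : ℕ} {e d e' d' : ℤˣ} (h : RS n a b c e d)
    (h' : RS m a' b' c' e' d') :
    RS (n + m) (Nat.lcm a a') (Nat.lcm b b') (Nat.lcm c c') (e * e') (d * d') := by
  obtain ⟨x, y, h1, h2, h3, h4, h5⟩ := h
  obtain ⟨x', y', g1, g2, g3, g4, g5⟩ := h'
  have key : ∀ (f : Perm (Fin n)) (g : Perm (Fin m)),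
      orderOf (Perm.sumCongr f g) = Nat.lcm (orderOf f) (orderOf g) := fun f g => by
    have := orderOf_injective (sumCongrHom (Fin n) (Fin m)) sumCongrHom_injective (f, g)
    rw [sumCongrHom_apply] at this
    rw [this, Prod.orderOf]
  refine RS.of_type (α := Fin n ⊕ Fin m) (by simp) (Perm.sumCongr x x') (Perm.sumCongr y y')
    (by rw [key, h1, g1]) (by rw [key, h2, g2]) ?_ (by rw [sign_sumCongr, h4, g4])
    (by rw [sign_sumCongr, h5, g5])
  rw [Perm.sumCongr_mul, key, h3, g3]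

theorem RS.one (m : ℕ) : RS m 1 1 1 1 1 := ⟨1, 1, by simp, by simp, by simp, by simp, by simp⟩

theorem RS.mono {n m a b c : ℕ} {e d : ℤˣ} (h : RS n a b c e d) (hm : n ≤ m) :
    RS m a b c e d := by
  obtain ⟨k, rfl⟩ := Nat.exists_eq_add_of_le hm
  simpa using h.add (RS.one k)

theorem R.swap {n a b c : ℕ} (h : R n a b c) : R n b a c := by
  obtain ⟨_, _, h⟩ := R_iff.1 h; exact h.swap.r

theorem R.rot {n a b c : ℕ} (h : R n a b c) : R n b c a := by
  obtain ⟨_, _, h⟩ := R_iff.1 h; exact h.rot.r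

theorem R.mono {n m a b c : ℕ} (h : R n a b c) (hm : n ≤ m) : R m a b c := by
  obtain ⟨_, _, h⟩ := R_iff.1 h; exact (h.mono hm).r

theorem R.add {n m a b c a' b' c' : ℕ} (h : R n a b c) (h' : R m a' b' c') :
    R (n + m) (Nat.lcm a a') (Nat.lcm b b') (Nat.lcm c c') := by
  obtain ⟨_, _, h⟩ := R_iff.1 h
  obtain ⟨_, _, h'⟩ := R_iff.1 h'
  exact (h.add h').r

end Pool.Agent.Lib.MP_bdfe25_al
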