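import Pool.Agent.Lib.MP_bdfe25_al.FC
import Pool.Agent.Lib.MP_bdfe25_al.RDef

set_option autoImplicit false
set_option linter.unusedSectionVars false

open Equiv Equiv.Perm Finset

namespace Pool.Agent.Lib.MP_bdfe25_al

theorem par {m n : ℕ} : ((-1 : ℤˣ) ^ m = (-1) ^ n) ↔ m % 2 = n % 2 := by
  rw [Int.units_pow_eq_pow_mod_two (-1) m, Int.units_pow_eq_pow_mod_two (-1) n]
  rcases Nat.mod_two_eq_zero_or_one m with h | h <;>
    rcases Nat.mod_two_eq_zero_or_one n with h' | h' <;> simp [h, h']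

theorem par_one {m : ℕ} (h : m % 2 = 0) : (-1 : ℤˣ) ^ m = 1 :=
  (par (n := 0)).mpr h

theorem par_neg {m : ℕ} (h : m % 2 = 1) : (-1 : ℤˣ) ^ m = -1 :=
  ((par (n := 1)).mpr h).trans (pow_one _)

theorem lcm_eq {A : Multiset ℕ} {a : ℕ} (h1 : ∀ x ∈ A, x ∣ a) (h2 : a ∈ A) : A.lcm = a :=
  Nat.dvd_antisymm (Multiset.lcm_dvd.mpr h1) (Multiset.dvd_lcm h2)

theorem Ty.rs {X : Type} [Fintype X] [DecidableEq X] {σ τ : Perm X} {A B C : Multiset ℕ}
    (h1 : Ty σ A) (h2 : Ty τ B) (h3 : parts (σ * τ) = C) :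
    RS A.sum A.lcm B.lcm C.lcm ((-1) ^ (A.sum + Multiset.card A))
      ((-1) ^ (B.sum + Multiset.card B)) :=
  RS.of_type (by rw [← sum_parts σ, h1.1]) σ τ (by rw [orderOf_eq_lcm, h1.1])
    (by rw [orderOf_eq_lcm, h2.1]) (by rw [orderOf_eq_lcm, h3]) h1.2 h2.2

/-- a cycle type on `N` points of order `a` with `k` cycles -/
def Sup (N a k : ℕ) : Prop :=
  ∃ A : Multiset ℕ, (∀ x ∈ A, 1 ≤ x) ∧ A.sum = N ∧ A.lcm = a ∧ Multiset.card A = k

theorem full_of_sup {N a b k l : ℕ} (hA : Sup N a k) (hB : Sup N b l) (h2 : 2 ≤ a)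
    (hN : 1 ≤ N) (h : k + l ≤ N + 1) (hp : (k + l) % 2 = (N + 1) % 2) :
    RS N a b N ((-1) ^ (N + k)) ((-1) ^ (N + l)) := by
  obtain ⟨A, pa, sa, rfl, rfl⟩ := hA
  obtain ⟨B, pb, sb, rfl, rfl⟩ := hB
  obtain ⟨α, hα, h3⟩ : ∃ α ∈ A, α ≠ 1 := by
    by_contra h4
    have h5 : A.lcm ∣ 1 := Multiset.lcm_dvd.mpr fun x hx => by
      by_contra h6
      exact h4 ⟨x, hx, fun h7 => h6 (h7 ▸ dvd_rfl)⟩
    have := Nat.dvd_one.mp h5
    omega
  obtain ⟨β, hβ⟩ : ∃ β, β ∈ B := Multiset.exists_mem_of_ne_zero fun h4 => by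
    rw [h4, Multiset.sum_zero] at sb
    omega
  obtain ⟨A, rfl⟩ := Multiset.exists_cons_of_mem hα
  obtain ⟨B, rfl⟩ := Multiset.exists_cons_of_mem hβ
  have hc := h
  have hp' := hp
  rw [Multiset.card_cons, Multiset.card_cons] at hc hp'
  obtain ⟨X, _, _, σ, τ, x, t1, t2, hF, -, -⟩ :=
    fc_all N ((N - 1 - Multiset.card A - Multiset.card B) / 2) α A β B
      ⟨pa α hα, pb β hβ, fun x hx => pa x (Multiset.mem_cons_of_mem hx),
        fun x hx => pb x (Multiset.mem_cons_of_mem hx), by rwa [Multiset.sum_cons] at sa,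
        by rwa [Multiset.sum_cons] at sb, by omega, fun h4 => absurd h4 h3⟩
  have h5 := t1.rs t2 (hF.parts x)
  rw [← sum_parts σ, t1.1, sa, sb] at h5
  simpa using h5

theorem sup_odd {x N : ℕ} (hx : x % 2 = 1) (h3 : 3 ≤ x) (hN : x ≤ N) :
    ∃ k, Sup N x k ∧ (N + k) % 2 = 0 ∧ 2 * k ≤ N + 1 := by
  obtain ⟨i, hi⟩ : ∃ i, N / x = i + 1 := ⟨N / x - 1, by
    have := Nat.div_pos hN (by omega : 0 < x); omega⟩
  have h1 := Nat.div_add_mod N x
  have h2 := Nat.mod_lt N (by omega : 0 < x)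
  rw [hi] at h1
  generalize N % x = r at h1 h2
  obtain ⟨y, rfl⟩ : ∃ y, x = 2 * y + 3 := ⟨(x - 3) / 2, by omega⟩
  have h4 : (2 * y + 3) * (i + 1) = 2 * (y * i) + 3 * i + 2 * y + 3 := by ring
  refine ⟨i + 1 + r, ⟨Multiset.replicate (i + 1) (2 * y + 3) + Multiset.replicate r 1, ?_, ?_,
    lcm_eq ?_ ?_, by simp; omega⟩, by omega, by omega⟩
  · intro z hz
    rcases Multiset.mem_add.mp hz with hz | hz <;> rw [Multiset.eq_of_mem_replicate hz]
    omega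
  · rw [Multiset.sum_add, Multiset.sum_replicate, Multiset.sum_replicate, smul_eq_mul,
      smul_eq_mul, mul_one, mul_comm, h1]
  · intro z hz
    rcases Multiset.mem_add.mp hz with hz | hz <;> rw [Multiset.eq_of_mem_replicate hz]
    exact one_dvd _
  · simp

theorem Sup.pad {N a k : ℕ} (h : Sup N a k) (ha : a % 2 = 0) (t f : ℕ) :
    Sup (N + 2 * t + f) a (k + t + f) := by
  obtain ⟨A, pa, sa, la, ca⟩ := h
  refine ⟨A + Multiset.replicate t 2 + Multiset.replicate f 1, ?_, ?_, ?_, by simp [ca]⟩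
  · intro z hz
    simp only [Multiset.mem_add, Multiset.mem_replicate] at hz
    rcases hz with (hz | hz) | hz
    · exact pa z hz
    · omega
    · omega
  · simp [sa, mul_comm]
  · apply Nat.dvd_antisymm
    · refine Multiset.lcm_dvd.mpr fun z hz => ?_
      simp only [Multiset.mem_add, Multiset.mem_replicate] at hz
      rcases hz with (hz | hz) | hz
      · exact la ▸ Multiset.dvd_lcm hz
      · rw [hz.2]; exact Nat.dvd_of_mod_eq_zero ha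
      · rw [hz.2]; exact one_dvd _
    · rw [← la]
      exact Multiset.lcm_mono (Multiset.subset_of_le
        (le_trans (Multiset.le_add_right _ _) (Multiset.le_add_right _ _)))

theorem sup_one {x : ℕ} (h : 1 ≤ x) : Sup x x 1 :=
  ⟨{x}, by simpa using h, by simp, by simp, by simp⟩

/-- order `x` and sign `s` are available on `N` points in the standard form -/
def Ex (x N : ℕ) (s : ℤˣ) : Prop :=
  (x % 2 = 1 ∧ s = 1) ∨ (x % 2 = 0 ∧ s = -1) ∨ (x % 2 = 0 ∧ s = 1 ∧ x + 2 ≤ N)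

theorem supply {x N : ℕ} {s : ℤˣ} (h2 : 2 ≤ x) (hN : x ≤ N) (h : Ex x N s) :
    ∃ k, Sup N x k ∧ (-1) ^ (N + k) = s ∧ 2 * k ≤ N + 3 ∧ (x ≠ 2 → 2 * k ≤ N + 1) := by
  rcases h with ⟨h, rfl⟩ | ⟨h, rfl⟩ | ⟨h, rfl, h'⟩
  · obtain ⟨k, h3, h4, h5⟩ := sup_odd h (by omega) hN
    exact ⟨k, h3, par_one h4, by omega, fun _ => h5⟩
  · have h3 := (sup_one (x := x) (by omega)).pad h (2 * ((N - x) / 4)) ((N - x) % 4)
    rw [show x + 2 * (2 * ((N - x) / 4)) + (N - x) % 4 = N by omega] at h3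
    exact ⟨_, h3, par_neg (by omega), by omega, fun _ => by omega⟩
  · have h3 := (sup_one (x := x) (by omega)).pad h (2 * ((N - x - 2) / 4) + 1) ((N - x - 2) % 4)
    rw [show x + 2 * (2 * ((N - x - 2) / 4) + 1) + (N - x - 2) % 4 = N by omega] at h3
    exact ⟨_, h3, par_one (by omega), by omega, fun _ => by omega⟩

/-- the product is a cycle on all `c` points -/
theorem full_rs {a b c : ℕ} {s t : ℤˣ} (ha : 2 ≤ a) (hb : 2 ≤ b) (hac : a ≤ c) (hbc : b ≤ c)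
    (h1 : Ex a c s) (h2 : Ex b c t) (hs : s * t = (-1) ^ (c + 1))
    (hne : ¬ (a = 2 ∧ b = 2 ∧ c % 2 = 1)) : RS c a b c s t := by
  obtain ⟨k, k1, rfl, k3, k4⟩ := supply ha hac h1
  obtain ⟨l, l1, rfl, l3, l4⟩ := supply hb hbc h2
  rw [← pow_add, par] at hs
  exact full_of_sup k1 l1 ha (by omega) (by omega) (by omega)

theorem dihedral {c : ℕ} (hc : c % 2 = 1) (h3 : 3 ≤ c) : ∃ e, RS c 2 2 c e e := by
  have h := (sup_one (x := 2) (by omega)).pad rfl ((c - 3) / 2) 1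
  rw [show 2 + 2 * ((c - 3) / 2) + 1 = c by omega] at h
  exact ⟨_, full_of_sup h h le_rfl (by omega) (by omega) (by omega)⟩

theorem full_odd {a b c : ℕ} {s : ℤˣ} (ha : 2 ≤ a) (hb : 2 ≤ b) (hac : a ≤ c) (hbc : b ≤ c)
    (hc : c % 2 = 1) (h1 : Ex a c s) (h2 : Ex b c s) (hne : ¬ (a = 2 ∧ b = 2)) :
    RS c a b c s s :=
  full_rs ha hb hac hbc h1 h2 (by rw [par_one (by omega), Int.units_mul_self]) (by omega)

theorem full_even {a b c : ℕ} {s : ℤˣ} (ha : 2 ≤ a) (hb : 2 ≤ b) (hac : a ≤ c) (hbc : b ≤ c)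
    (hc : c % 2 = 0) (h1 : Ex a c s) (h2 : Ex b c (-s)) : RS c a b c s (-s) :=
  full_rs ha hb hac hbc h1 h2 (by rw [par_neg (by omega), mul_neg, Int.units_mul_self])
    (by omega)

theorem L1 {a b c : ℕ} (h2 : 2 ≤ a) (hab : a ≤ b) (hbc : b ≤ c)
    (h : (Odd a ∧ b = c) ∨ (Odd a ∧ Odd b ∧ Odd c) ∨ (Odd a ∧ Even b ∧ b + 2 ≤ c) ∨
      (Even a ∧ b + 1 ≤ c)) : R c a b c := by
  simp only [Nat.odd_iff, Nat.even_iff] at h
  have hb : 2 ≤ b := h2.trans hab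
  have hac : a ≤ c := hab.trans hbc
  rcases Nat.mod_two_eq_zero_or_one a with pa | pa <;>
    rcases Nat.mod_two_eq_zero_or_one b with pb | pb <;>
    rcases Nat.mod_two_eq_zero_or_one c with pc | pc
  · exact (full_even (s := -1) h2 hb hac hbc pc (Or.inr (Or.inl ⟨pa, rfl⟩))
      (Or.inr (Or.inr ⟨pb, neg_neg _, by omega⟩))).r
  · by_cases h3 : a = 2 ∧ b = 2
    · obtain ⟨rfl, rfl⟩ := h3
      obtain ⟨e, he⟩ := dihedral pc (by omega)
      exact he.r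
    · exact (full_odd (s := -1) h2 hb hac hbc pc (Or.inr (Or.inl ⟨pa, rfl⟩))
        (Or.inr (Or.inl ⟨pb, rfl⟩)) h3).r
  · exact (full_even (s := -1) h2 hb hac hbc pc (Or.inr (Or.inl ⟨pa, rfl⟩))
      (Or.inl ⟨pb, neg_neg _⟩)).r
  · exact (full_odd (s := 1) h2 hb hac hbc pc (Or.inr (Or.inr ⟨pa, rfl, by omega⟩))
      (Or.inl ⟨pb, rfl⟩) (by omega)).r
  · exact (full_even (s := 1) h2 hb hac hbc pc (Or.inl ⟨pa, rfl⟩)
      (Or.inr (Or.inl ⟨pb, rfl⟩))).r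
  · exact (full_odd (s := 1) h2 hb hac hbc pc (Or.inl ⟨pa, rfl⟩)
      (Or.inr (Or.inr ⟨pb, rfl, by omega⟩)) (by omega)).r
  · omega
  · exact (full_odd (s := 1) h2 hb hac hbc pc (Or.inl ⟨pa, rfl⟩) (Or.inl ⟨pb, rfl⟩)
      (by omega)).r

theorem L3 {a c : ℕ} (ha : Even a) (h2 : 2 ≤ a) (hc : a + 2 ≤ c) : R c a c c := by
  rw [Nat.even_iff] at ha
  rcases Nat.mod_two_eq_zero_or_one c with pc | pc
  · exact (full_even (s := 1) h2 (by omega) (by omega) le_rfl pc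
      (Or.inr (Or.inr ⟨ha, rfl, hc⟩)) (Or.inr (Or.inl ⟨pc, rfl⟩))).r
  · exact (full_odd (s := 1) h2 (by omega) (by omega) le_rfl pc
      (Or.inr (Or.inr ⟨ha, rfl, hc⟩)) (Or.inl ⟨pc, rfl⟩) (by omega)).r

theorem L5 {a N r s : ℕ} (ha : Odd a) (h3 : 3 ≤ a) (hN : Odd N) (haN : a ≤ N) (hr : Odd r)
    (h3r : 3 ≤ r) (hs : 1 ≤ s) (h : r + 2 ^ s + 2 ≤ N) : R N (2 ^ s * r) a N := by
  have hco : Nat.Coprime (2 ^ s) r := (Nat.coprime_two_left.mpr hr).pow_left s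
  rw [Nat.odd_iff] at ha hN hr
  obtain ⟨s, rfl⟩ : ∃ k, s = k + 1 := ⟨s - 1, by omega⟩
  have hq : 1 ≤ 2 ^ s := Nat.one_le_two_pow
  have h0 : Sup (2 ^ (s + 1) + r) (2 ^ (s + 1) * r) 2 := by
    refine ⟨{2 ^ (s + 1), r}, ?_, by simp, ?_, by simp⟩
    · intro z hz
      simp only [Multiset.insert_eq_cons, Multiset.mem_cons, Multiset.mem_singleton] at hz
      rcases hz with rfl | rfl
      · exact Nat.one_le_two_pow
      · omega
    · rw [← hco.lcm_eq_mul]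
      simp [lcm_eq_nat_lcm]
  have he : (2 ^ (s + 1) * r) % 2 = 0 := by
    rw [pow_succ, mul_right_comm]; omega
  have hb : 2 ≤ 2 ^ (s + 1) * r := by
    have : 0 < 2 ^ (s + 1) * r := by positivity
    omega
  generalize 2 ^ (s + 1) * r = m at h0 he hb ⊢
  rw [pow_succ] at h h0
  generalize 2 ^ s = q at h h0 hq
  have h1 := h0.pad he (2 * ((N - (q * 2 + r) - 2) / 4) + 1) ((N - (q * 2 + r) - 2) % 4)
  rw [show q * 2 + r + 2 * (2 * ((N - (q * 2 + r) - 2) / 4) + 1) + (N - (q * 2 + r) - 2) % 4 = N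
    by omega] at h1
  obtain ⟨k, k1, k2, k3⟩ := sup_odd ha h3 haN
  exact (full_of_sup h1 k1 hb (by omega) (by omega) (by omega)).r

end Pool.Agent.Lib.MP_bdfe25_al
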