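import Pool.Agent.Lib.MP_bdfe25_al.Full

set_option autoImplicit false
set_option linter.unusedSectionVars false

open Equiv Equiv.Perm Finset

namespace Pool.Agent.Lib.MP_bdfe25_al

/-- types of two permutations and of their product, with a point on the two marked cycles -/
def Tr (α : ℕ) (A : Multiset ℕ) (β : ℕ) (B C : Multiset ℕ) : Prop :=
  ∃ (X : Type) (_ : Fintype X) (_ : DecidableEq X) (σ τ : Perm X) (x : X),
    Ty σ (α ::ₘ A) ∧ Ty τ (β ::ₘ B) ∧ parts (σ * τ) = C ∧ len σ x = α ∧ len τ x = β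

theorem FC.tr {α β : ℕ} {A B : Multiset ℕ} (h : FC α A β B) : Tr α A β B {α + A.sum} := by
  obtain ⟨X, _, _, σ, τ, x, h1, h2, h3, h4, h5⟩ := h
  refine ⟨X, _, _, σ, τ, x, h1, h2, ?_, h4, h5⟩
  rw [h3.parts x, ← sum_parts σ, h1.1, Multiset.sum_cons]

theorem cons_add_cons (a b : ℕ) (A B : Multiset ℕ) :
    (a ::ₘ A) + (b ::ₘ B) = a ::ₘ b ::ₘ (A + B) := by
  rw [Multiset.cons_add, Multiset.add_cons]

theorem swap_cancel {X : Type} [DecidableEq X] (σ τ : Perm X) (x y : X) :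
    σ * swap x y * (swap x y * τ) = σ * τ := by
  rw [mul_assoc, ← mul_assoc (swap x y), swap_mul_self, one_mul]

theorem Tr.glue {α β α' β' : ℕ} {A B C A' B' C' : Multiset ℕ} (h : Tr α A β B C)
    (h' : Tr α' A' β' B' C') : Tr (α + α') (A + A') (β + β') (B + B') (C + C') := by
  obtain ⟨X, _, _, σ, τ, x, h1, h2, h3, h4, h5⟩ := h
  obtain ⟨Y, _, _, ρ, κ, y, g1, g2, g3, g4, g5⟩ := h'
  have n1 := not_same_inl_inr σ ρ (x := x) (y := y)
  have n2 := not_same_inl_inr τ κ (x := x) (y := y)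
  refine ⟨X ⊕ Y, _, _, _, _, Sum.inl x,
    ty_right n1 (cons_add_cons α α' A A' ▸ h1.sum g1) ((len_inl _ _ _).trans h4)
      ((len_inr _ _ _).trans g4),
    ty_left n2 (cons_add_cons β β' B B' ▸ h2.sum g2) ((len_inl _ _ _).trans h5)
      ((len_inr _ _ _).trans g5), ?_, ?_, ?_⟩
  · rw [swap_cancel, Perm.sumCongr_mul, parts_sum, h3, g3]
  · rw [(mg_right n1).len_in n1 (Or.inl (SameCycle.refl _ _)), len_inl, len_inr, h4, g4]
  · rw [(mg_left n2).len_in n2 (Or.inl (SameCycle.refl _ _)), len_inl, len_inr, h5, g5]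

theorem lcm_cons_eq {a : ℕ} {A : Multiset ℕ} (h : ∀ z ∈ A, z ∣ a) : (a ::ₘ A).lcm = a :=
  lcm_eq (fun z hz => (Multiset.mem_cons.mp hz).elim (fun h1 => h1 ▸ dvd_rfl) (h z))
    (Multiset.mem_cons_self _ _)

theorem Tr.rs {α β c : ℕ} {A B C : Multiset ℕ} (h : Tr α A β B (c ::ₘ C))
    (hA : ∀ z ∈ A, z ∣ α) (hB : ∀ z ∈ B, z ∣ β) (hC : ∀ z ∈ C, z ∣ c) :
    RS (α + A.sum) α β c ((-1) ^ (α + A.sum + (Multiset.card A + 1)))
      ((-1) ^ (β + B.sum + (Multiset.card B + 1))) := by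
  obtain ⟨X, _, _, σ, τ, x, h1, h2, h3, -, -⟩ := h
  have h4 := h1.rs h2 h3
  rwa [lcm_cons_eq hA, lcm_cons_eq hB, lcm_cons_eq hC, Multiset.sum_cons, Multiset.sum_cons,
    Multiset.card_cons, Multiset.card_cons] at h4

theorem fc_two : FC 2 0 1 {1} :=
  fc_all 2 0 _ _ _ _ ⟨by omega, le_rfl, by simp, by simp, by simp, by simp, by simp, by omega⟩

theorem odd_type {x N : ℕ} (hx : x % 2 = 1) (h3 : 3 ≤ x) (hN : x ≤ N) :
    ∃ A : Multiset ℕ, (∀ z ∈ A, 1 ≤ z) ∧ (∀ z ∈ A, z ∣ x) ∧ x + A.sum = N ∧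
      (N + Multiset.card A) % 2 = 1 ∧ 2 * Multiset.card A + 1 ≤ N := by
  obtain ⟨i, hi⟩ : ∃ i, N / x = i + 1 := ⟨N / x - 1, by
    have := Nat.div_pos hN (by omega : 0 < x); omega⟩
  have h1 := Nat.div_add_mod N x
  have h2 := Nat.mod_lt N (by omega : 0 < x)
  rw [hi] at h1
  generalize N % x = r at h1 h2
  obtain ⟨y, rfl⟩ : ∃ y, x = 2 * y + 3 := ⟨(x - 3) / 2, by omega⟩
  have h4 : (2 * y + 3) * (i + 1) = 2 * (y * i) + 3 * i + 2 * y + 3 := by ring
  have h5 : i * (2 * y + 3) = 2 * (y * i) + 3 * i := by ring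
  refine ⟨Multiset.replicate i (2 * y + 3) + Multiset.replicate r 1, ?_, ?_, ?_, ?_, ?_⟩
  · intro z hz
    rcases Multiset.mem_add.mp hz with hz | hz <;> rw [Multiset.eq_of_mem_replicate hz]
    omega
  · intro z hz
    rcases Multiset.mem_add.mp hz with hz | hz <;> rw [Multiset.eq_of_mem_replicate hz]
    exact one_dvd _
  · rw [Multiset.sum_add, Multiset.sum_replicate, Multiset.sum_replicate, smul_eq_mul,
      smul_eq_mul]
    omega
  · rw [Multiset.card_add, Multiset.card_replicate, Multiset.card_replicate]; omega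
  · rw [Multiset.card_add, Multiset.card_replicate, Multiset.card_replicate]; omega

/-- two odd orders and an even product of type `(m, 2)` -/
theorem two_faces {x y m : ℕ} (hx : x % 2 = 1) (hy : y % 2 = 1) (hm : m % 2 = 0) (h3 : 3 ≤ x)
    (h3' : 3 ≤ y) (hxm : x ≤ m + 1) (hym : y ≤ m + 1) : RS (m + 2) x y m 1 1 := by
  obtain ⟨A, a1, a2, a3, a4, a5⟩ := odd_type hx h3 (N := m + 2) (by omega)
  obtain ⟨B, b1, b2, b3, b4, b5⟩ := odd_type hy h3' hym
  obtain ⟨x, rfl⟩ : ∃ k, x = k + 2 := ⟨x - 2, by omega⟩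
  obtain ⟨y, rfl⟩ : ∃ k, y = k + 1 := ⟨y - 1, by omega⟩
  have h := (fc_all m ((m - 1 - Multiset.card A - Multiset.card B) / 2) x A y B
    ⟨by omega, by omega, a1, b1, by omega, by omega, by omega, by omega⟩).tr.glue fc_two.tr
  rw [show x + A.sum = m by omega, add_zero, Multiset.singleton_add] at h
  have h1 := h.rs a2 (fun z hz => (Multiset.mem_add.mp hz).elim (b2 z) fun h2 => by
    rw [Multiset.mem_singleton.mp h2]; exact one_dvd _) (fun z hz => by
      rw [Multiset.mem_singleton.mp hz]; exact Nat.dvd_of_mod_eq_zero hm)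
  rw [Multiset.sum_add, Multiset.card_add, Multiset.sum_singleton, Multiset.card_singleton,
    par_one (by omega), par_one (by omega), a3] at h1
  exact h1

theorem rs_212 : RS 2 2 1 2 (-1) 1 := by
  have h : orderOf (swap (0 : Fin 2) 1) = 2 := orderOf_eq_prime (by decide) (by decide)
  exact ⟨swap 0 1, 1, h, orderOf_one, by rwa [mul_one], sign_swap (by decide), map_one _⟩

theorem RS.flip_ac {N a b c : ℕ} {s t : ℤˣ} (h : RS N a b c s t) (ha : a % 2 = 0)
    (hc : c % 2 = 0) : RS (N + 2) a b c (-s) t := by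
  have h1 := h.add rs_212
  rwa [Nat.lcm_eq_left (Nat.dvd_of_mod_eq_zero ha), Nat.lcm_eq_left (Nat.dvd_of_mod_eq_zero hc),
    Nat.lcm_one_right, mul_neg, mul_one, mul_one] at h1

theorem RS.flip_ab {N a b c : ℕ} {s t : ℤˣ} (h : RS N a b c s t) (ha : a % 2 = 0)
    (hb : b % 2 = 0) : RS (N + 2) a b c (-s) (-t) := by
  have h1 := h.add rs_212.rot.rot
  rw [Nat.lcm_eq_left (Nat.dvd_of_mod_eq_zero ha), Nat.lcm_eq_left (Nat.dvd_of_mod_eq_zero hb),
    Nat.lcm_one_right] at h1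
  simpa using h1

theorem minus_all {c : ℕ} (hc : c % 2 = 0) (h2 : 2 ≤ c) : RS (c + 2) c c c (-1) (-1) := by
  by_cases h4 : c = 2
  · subst h4
    simpa using rs_212.add rs_212.swap
  obtain ⟨c, rfl⟩ : ∃ k, c = k + 2 := ⟨c - 2, by omega⟩
  have h := (fc_all (c + 2) ((c - 2) / 2) c {1, 1} (c + 1) {1}
    ⟨by omega, by omega, by simp, by simp, by simp, by simp, by simp; omega,
      by omega⟩).tr.glue fc_two.tr
  rw [add_zero, Multiset.singleton_add, Multiset.singleton_add] at h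
  have h1 := h.rs (by simp) (by simp) (by simpa using Nat.dvd_of_mod_eq_zero (by omega))
  rw [par_neg (by simp; omega), par_neg (by simp; omega)] at h1
  simpa using h1

theorem eq_of_len_one {X : Type} [Fintype X] [DecidableEq X] {σ : Perm X} {x u : X}
    (h : len σ x = 1) (hu : σ.SameCycle x u) : x = u :=
  card_le_one.mp h.le x (mem_cls.mpr (SameCycle.refl _ _)) u (mem_cls.mpr hu)

theorem plus_big {c : ℕ} (hc : c % 2 = 1) (h3 : 3 ≤ c) :
    RS (c + 5) (c + 3) (c + 3) (c + 3) 1 1 := by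
  obtain ⟨X, _, _, σ, τ, x, h1, h2, h3, h4, h5⟩ :=
    (fc_all (c + 3) ((c - 1) / 2) c (1 ::ₘ {2}) 1 {c + 2}
      ⟨by omega, le_rfl, by simp, by simp, by simp, by simp; omega, by simp; omega, by omega⟩).tr
  obtain ⟨Y, _, _, ρ, κ, y, g1, g2, g3, g4, g5⟩ := fc_two.tr
  obtain ⟨u, hu, lu⟩ := pick (h4 ▸ h1.1)
  have hu' : ¬ τ.SameCycle x u := fun h => ne_of_not_same hu (eq_of_len_one h5 h)
  have lu' : len τ u = c + 2 := Multiset.mem_singleton.mp (len_mem_rest (h5 ▸ h2.1) hu')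
  obtain ⟨v, hv, lv⟩ := pick (R := 0) (g5 ▸ g2.1)
  have hv' : ρ.SameCycle y v := by
    by_contra h
    exact Multiset.notMem_zero _ (len_mem_rest (g4 ▸ g1.1) h)
  have n1 := not_same_inl_inr σ ρ (x := x) (y := y)
  have n2 := not_same_inl_inr τ κ (x := x) (y := y)
  have t1 := ty_right n1 (cons_add_cons _ _ _ _ ▸ h1.sum g1) ((len_inl _ _ _).trans h4)
    ((len_inr _ _ _).trans g4)
  have t2 := ty_left n2 (cons_add_cons _ _ _ _ ▸ h2.sum g2) ((len_inl _ _ _).trans h5)
    ((len_inr _ _ _).trans g5)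
  have o1 : ¬ ((Perm.sumCongr σ ρ).SameCycle (Sum.inl x) (Sum.inl u) ∨
      (Perm.sumCongr σ ρ).SameCycle (Sum.inr y) (Sum.inl u)) := fun h =>
    h.elim (fun h => hu ((same_inl_inl _ _).mp h)) fun h => not_same_inl_inr _ _ h.symm
  have o2 : ¬ ((Perm.sumCongr τ κ).SameCycle (Sum.inl x) (Sum.inl u) ∨
      (Perm.sumCongr τ κ).SameCycle (Sum.inr y) (Sum.inl u)) := fun h =>
    h.elim (fun h => hu' ((same_inl_inl _ _).mp h)) fun h => not_same_inl_inr _ _ h.symm
  have o3 : ¬ ((Perm.sumCongr τ κ).SameCycle (Sum.inl x) (Sum.inr v) ∨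
      (Perm.sumCongr τ κ).SameCycle (Sum.inr y) (Sum.inr v)) := fun h =>
    h.elim (not_same_inl_inr _ _) fun h => hv ((same_inr_inr _ _).mp h)
  have m1 := (mg_right n1).not_same (not_same_inl_inr σ ρ (x := u) (y := v)) o1
  have m2 := (mg_left n2).not_same (not_same_inl_inr τ κ (x := u) (y := v)) o2
  rw [add_zero, Multiset.cons_swap] at t1
  rw [Multiset.singleton_add, Multiset.cons_swap, ← Multiset.cons_zero 1,
    Multiset.cons_swap (1 + 1) 1] at t2
  have s1 := ty_right m1 t1 (by rw [(mg_right n1).len_out o1, len_inl, lu])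
    (by rw [(mg_right n1).len_in n1 (Or.inr ((same_inr_inr _ _).mpr hv')), len_inl, len_inr, h4,
      g4])
  have s2 := ty_left m2 t2 (by rw [(mg_left n2).len_out o2, len_inl, lu'])
    (by rw [(mg_left n2).len_out o3, len_inr, lv, g5])
  have h6 := s1.rs s2 (C := (c + 3) ::ₘ {2}) (by
    rw [swap_cancel, swap_cancel, Perm.sumCongr_mul, parts_sum, h3, g3]; rfl)
  have hd : 2 ∣ c + 3 := by omega
  rw [show 1 + (c + 2) = c + 3 by omega, show c + 2 + 1 = c + 3 by omega,
    lcm_cons_eq (by simpa using hd), lcm_cons_eq (by simpa using hd), par_one (by simp; omega),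
    par_one (by simp; omega)] at h6
  simpa using h6

set_option maxRecDepth 20000 in
theorem plus_all {c : ℕ} (hc : c % 2 = 0) (h2 : 2 ≤ c) : RS (c + 2) c c c 1 1 := by
  by_cases h : c = 2
  · subst h
    exact ⟨swap 0 1 * swap 2 3, swap 0 2 * swap 1 3, orderOf_eq_prime (by decide) (by decide),
      orderOf_eq_prime (by decide) (by decide), orderOf_eq_prime (by decide) (by decide),
      by decide, by decide⟩
  by_cases h' : c = 4
  · subst h'
    have key : ∀ x : Perm (Fin 6), ¬ x ^ 2 ^ 1 = 1 → x ^ 2 ^ (1 + 1) = 1 → orderOf x = 4 :=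
      fun x h1 h2 => orderOf_eq_prime_pow h1 h2
    exact ⟨swap 0 1 * swap 1 2 * swap 2 3 * swap 4 5, swap 0 1 * swap 1 3 * swap 3 5 * swap 2 4,
      key _ (by decide) (by decide), key _ (by decide) (by decide),
      key _ (by decide) (by decide), by decide, by decide⟩
  obtain ⟨c, rfl⟩ : ∃ k, c = k + 3 := ⟨c - 3, by omega⟩
  exact plus_big (by omega) (by omega)

theorem max_odd {a b c : ℕ} {s : ℤˣ} (ha : 2 ≤ a) (hb : 2 ≤ b) (hac : a ≤ c) (hbc : b ≤ c)
    (hc : c % 2 = 1) (pa : a % 2 = 0) (h2 : b % 2 = 1 → s = 1) : RS (c + 2) a b c s s := by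
  rcases Nat.mod_two_eq_zero_or_one b with pb | pb
  · have h : ∃ e, RS c a b c e e := by
      by_cases h3 : a = 2 ∧ b = 2
      · obtain ⟨rfl, rfl⟩ := h3
        exact dihedral hc (by omega)
      · exact ⟨-1, full_odd ha hb hac hbc hc (Or.inr (Or.inl ⟨pa, rfl⟩))
          (Or.inr (Or.inl ⟨pb, rfl⟩)) h3⟩
    obtain ⟨e, h⟩ := h
    by_cases h4 : s = e
    · exact h4 ▸ h.mono (by omega)
    · exact Int.units_ne_iff_eq_neg.mp h4 ▸ h.flip_ab pa pb
  · obtain rfl := h2 pb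
    by_cases h3 : a + 2 ≤ c
    · exact (full_odd ha hb hac hbc hc (Or.inr (Or.inr ⟨pa, rfl, h3⟩)) (Or.inl ⟨pb, rfl⟩)
        (by omega)).mono (by omega)
    · have h4 := (two_faces pb hc pa (by omega) (by omega) (by omega) (by omega)).rot.rot
      exact RS.mono (by simpa using h4) (by omega)

theorem max_even_neg {a b c : ℕ} (ha : 2 ≤ a) (hb : 2 ≤ b) (hac : a ≤ c) (hbc : b ≤ c)
    (hc : c % 2 = 0) (pb : b % 2 = 0) : RS (c + 2) a b c 1 (-1) := by
  by_cases h : Ex a c 1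
  · exact (full_even ha hb hac hbc hc h (Or.inr (Or.inl ⟨pb, rfl⟩))).mono (by omega)
  have h1 : a % 2 = 0 ∧ a = c := by
    simp only [Ex, and_true, true_and, not_or] at h
    omega
  obtain ⟨pa, rfl⟩ := h1
  by_cases h2 : b + 2 ≤ a
  · simpa using (full_even (s := -1) ha hb hac hbc hc (Or.inr (Or.inl ⟨pa, rfl⟩))
      (Or.inr (Or.inr ⟨pb, neg_neg _, h2⟩))).flip_ab pa pb
  · obtain rfl : b = a := by omega
    simpa using (minus_all hc ha).rot.rot

theorem max_even_pos {a b c : ℕ} {s : ℤˣ} (ha : 2 ≤ a) (hb : 2 ≤ b) (hab : b ≤ a) (hac : a ≤ c)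
    (hc : c % 2 = 0) (pa : a % 2 = 0) (pb : b % 2 = 0) : RS (c + 2) a b c s s := by
  by_cases h : b + 2 ≤ c
  · rcases Int.units_eq_one_or s with rfl | rfl
    · simpa using (full_even (s := -1) ha hb hac (by omega) hc (Or.inr (Or.inl ⟨pa, rfl⟩))
        (Or.inr (Or.inr ⟨pb, neg_neg _, h⟩))).flip_ac pa hc
    · simpa using ((full_even (s := 1) hb ha (by omega) hac hc (Or.inr (Or.inr ⟨pb, rfl, h⟩))
        (Or.inr (Or.inl ⟨pa, rfl⟩))).flip_ac pb hc).swap
  · obtain rfl : b = c := by omega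
    obtain rfl : a = b := by omega
    rcases Int.units_eq_one_or s with rfl | rfl
    · exact plus_all hc ha
    · exact minus_all hc ha

theorem max_mixed {a b c : ℕ} (ha : 2 ≤ a) (hb : 2 ≤ b) (hac : a ≤ c) (hbc : b ≤ c)
    (hc : c % 2 = 0) (pa : a % 2 = 0) (pb : b % 2 = 1) : RS (c + 2) a b c 1 1 := by
  simpa using (full_even (s := -1) ha hb hac hbc hc (Or.inr (Or.inl ⟨pa, rfl⟩))
    (Or.inl ⟨pb, neg_neg _⟩)).flip_ac pa hc

theorem signed_max {a b c : ℕ} {s t : ℤˣ} (ha : 2 ≤ a) (hb : 2 ≤ b) (hac : a ≤ c) (hbc : b ≤ c)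
    (h1 : a % 2 = 1 → s = 1) (h2 : b % 2 = 1 → t = 1) (h3 : c % 2 = 1 → s * t = 1) :
    RS (c + 2) a b c s t := by
  rcases Nat.mod_two_eq_zero_or_one c with pc | pc
  · rcases Nat.mod_two_eq_zero_or_one a with pa | pa <;>
      rcases Nat.mod_two_eq_zero_or_one b with pb | pb
    · rcases Int.units_eq_one_or s with rfl | rfl <;> rcases Int.units_eq_one_or t with rfl | rfl
      · rcases le_total a b with h | h
        · exact (max_even_pos hb ha h hbc pc pb pa).swap
        · exact max_even_pos ha hb h hac pc pa pb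
      · exact max_even_neg ha hb hac hbc pc pb
      · exact (max_even_neg hb ha hbc hac pc pa).swap
      · rcases le_total a b with h | h
        · exact (max_even_pos hb ha h hbc pc pb pa).swap
        · exact max_even_pos ha hb h hac pc pa pb
    · obtain rfl := h2 pb
      rcases Int.units_eq_one_or s with rfl | rfl
      · exact max_mixed ha hb hac hbc pc pa pb
      · exact (max_even_neg hb ha hbc hac pc pa).swap
    · obtain rfl := h1 pa
      rcases Int.units_eq_one_or t with rfl | rfl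
      · exact (max_mixed hb ha hbc hac pc pb pa).swap
      · exact max_even_neg ha hb hac hbc pc pb
    · obtain rfl := h1 pa
      obtain rfl := h2 pb
      exact two_faces pa pb pc (by omega) (by omega) (by omega) (by omega)
  · obtain rfl : s = t := by
      have h := h3 pc
      rcases Int.units_eq_one_or s with rfl | rfl <;>
        rcases Int.units_eq_one_or t with rfl | rfl <;> simp at h ⊢
    rcases Nat.mod_two_eq_zero_or_one a with pa | pa
    · exact max_odd ha hb hac hbc pc pa h2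
    rcases Nat.mod_two_eq_zero_or_one b with pb | pb
    · exact (max_odd hb ha hbc hac pc pb h1).swap
    · obtain rfl := h1 pa
      exact (full_odd ha hb hac hbc pc (Or.inl ⟨pa, rfl⟩) (Or.inl ⟨pb, rfl⟩) (by omega)).mono
        (by omega)

theorem signed {n a b c : ℕ} {s t : ℤˣ} (ha : 2 ≤ a) (hb : 2 ≤ b) (hc : 2 ≤ c) (han : a + 2 ≤ n)
    (hbn : b + 2 ≤ n) (hcn : c + 2 ≤ n) (h1 : a % 2 = 1 → s = 1) (h2 : b % 2 = 1 → t = 1)
    (h3 : c % 2 = 1 → s * t = 1) : RS n a b c s t := by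
  have e1 : t * (s * t) = s := by rw [mul_comm s, ← mul_assoc, Int.units_mul_self, one_mul]
  have e2 : s * t * s = t := by rw [mul_comm s, mul_assoc, Int.units_mul_self, mul_one]
  by_cases h : a ≤ c ∧ b ≤ c
  · exact (signed_max ha hb h.1 h.2 h1 h2 h3).mono hcn
  by_cases h' : a ≤ b
  · have h4 := (signed_max hc ha (by omega) h' h3 h1 (fun h5 => e2.trans (h2 h5))).rot
    rw [e2] at h4
    exact h4.mono hbn
  · have h4 := (signed_max hb hc (by omega) (by omega : c ≤ a) h2 h3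
      (fun h5 => e1.trans (h1 h5))).rot.rot
    rw [e1, e2] at h4
    exact h4.mono han

end Pool.Agent.Lib.MP_bdfe25_al
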