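import Pool.Agent.Lib.MP_bdfe25_al.StA

/-! Configurations `x * y * z = 1` with three marked cycles, and the moves that enlarge them. -/

namespace Pool.Agent.Lib.MP_bdfe25_al

open Equiv Equiv.Perm Finset

/-- Three permutations with product one, marked cycles through a common point, the set `U` of
points in use, and points of `Z` fixed by `x` and by `y`. -/
structure Cf (n a b c A B E : ℕ) where
  x : Perm (Fin n)
  y : Perm (Fin n)
  z : Perm (Fin n)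
  X : Finset (Fin n)
  Y : Finset (Fin n)
  Z : Finset (Fin n)
  U : Finset (Fin n)
  Fx : Finset (Fin n)
  Fy : Finset (Fin n)
  o : Fin n
  mul : x * y * z = 1
  dx : Dsc x X a A
  dy : Dsc y Y b B
  dz : Dsc z Z c E
  ox : o ∈ X
  oy : o ∈ Y
  oz : o ∈ Z
  sx : X ⊆ U
  sy : Y ⊆ U
  sz : Z ⊆ U
  fix : ∀ v, v ∉ U → x v = v ∧ y v = v ∧ z v = v
  f1 : ∀ v ∈ Fx, v ∈ Z ∧ v ∉ X ∧ x v = v
  f2 : ∀ v ∈ Fy, v ∈ Z ∧ v ∉ Y ∧ y v = v

/-- The numerical data of a configuration. -/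
def St (n a b c A B E N p q r fx fy : ℕ) (e d : ℤˣ) : Prop :=
  ∃ s : Cf n a b c A B E, s.U.card = N ∧ s.X.card = p ∧ s.Y.card = q ∧ s.Z.card = r ∧
    s.Fx.card = fx ∧ s.Fy.card = fy ∧ sign s.x = e ∧ sign s.y = d

variable {n a b c A B E N p q r fx fy : ℕ} {e d : ℤˣ}

theorem rot3 {G : Type} [Group G] {x y z : G} (h : x * y * z = 1) : z * x * y = 1 := by
  have : z * x * y = z * (x * y * z) * z⁻¹ := by group
  rw [this, h]; group

theorem sign_odd {α : Type} [Fintype α] [DecidableEq α] {g : Perm α} {k : ℕ} (hk : Odd k)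
    (h : g ^ k = 1) : sign g = 1 := by
  have h1 : sign g ^ k = 1 := by rw [← map_pow, h, map_one]
  rcases Int.units_eq_one_or (sign g) with h2 | h2
  · exact h2
  · rw [h2, hk.neg_one_pow] at h1
    exact absurd h1 (by decide)

theorem St.core {k : ℕ} (hk : Odd k) (hn : k ≤ n) : St n a b c 1 1 1 k k k k 0 0 1 1 := by
  obtain ⟨S, -, hS⟩ := exists_subset_card_eq (s := (univ : Finset (Fin n))) (n := k)
    (by simpa using hn)
  obtain ⟨g, hg, hsup⟩ := S.exists_cycleOn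
  have hfix : ∀ v, v ∉ S → g v = v := fun v hv => by
    by_contra h
    exact hv (hsup (mem_support.2 h))
  have hpow : ∀ m v, v ∉ S → (g ^ m) v = v := fun m v hv =>
    pow_apply_eq_self_of_apply_eq_self (hfix v hv) m
  have hk1 : g ^ k = 1 := Equiv.ext fun v => by
    by_cases hv : v ∈ S
    · exact (hg.pow_apply_eq hv).2 (hS ▸ dvd_rfl)
    · exact hpow k v hv
  obtain ⟨o, ho⟩ : S.Nonempty := card_pos.1 (hS ▸ hk.pos)
  have h2 : (g ^ 2).IsCycleOn (S : Set (Fin n)) := by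
    obtain ⟨j, hj⟩ := hk
    refine IsCycleOn.of_pow (n := j + 1) ?_ (hg.1.perm_pow 2)
    have : (g ^ 2) ^ (j + 1) = g := by
      rw [← pow_mul, show 2 * (j + 1) = k + 1 by omega, pow_succ, hk1, one_mul]
    rwa [this]
  have dz : Dsc (g ^ 2) S c 1 := ⟨h2, fun v hv => by rw [← pow_mul]; exact hpow _ v hv,
    Or.inl rfl⟩
  exact ⟨⟨g, g, (g ^ 2)⁻¹, S, S, S, S, ∅, ∅, o, by group,
    ⟨hg, fun v hv => hpow _ v hv, Or.inl rfl⟩, ⟨hg, fun v hv => hpow _ v hv, Or.inl rfl⟩,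
    dz.inv, ho, ho, ho, Subset.rfl, Subset.rfl, Subset.rfl,
    fun v hv => ⟨hfix v hv, hfix v hv, by rw [Perm.inv_eq_iff_eq, hpow 2 v hv]⟩,
    by simp, by simp⟩, hS, hS, hS, hS, rfl, rfl, sign_odd hk hk1, sign_odd hk hk1⟩

theorem St.mirror (h : St n a b c A B E N p q r fx fy e d) : St n b a c B A E N q p r fy fx d e := by
  obtain ⟨s, h1, h2, h3, h4, h5, h6, h7, h8⟩ := h
  have hi : ∀ (f : Perm (Fin n)) v, f v = v → f⁻¹ v = v := fun f v h => by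
    rw [Perm.inv_eq_iff_eq, h]
  refine ⟨⟨s.y⁻¹, s.x⁻¹, s.z⁻¹, s.Y, s.X, s.Z, s.U, s.Fy, s.Fx, s.o, ?_, s.dy.inv, s.dx.inv,
    s.dz.inv, s.oy, s.ox, s.oz, s.sy, s.sx, s.sz, fun v hv => ⟨hi _ _ (s.fix v hv).2.1,
      hi _ _ (s.fix v hv).1, hi _ _ (s.fix v hv).2.2⟩,
    fun v hv => ⟨(s.f2 v hv).1, (s.f2 v hv).2.1, hi _ _ (s.f2 v hv).2.2⟩,
    fun v hv => ⟨(s.f1 v hv).1, (s.f1 v hv).2.1, hi _ _ (s.f1 v hv).2.2⟩⟩,
    h1, h3, h2, h4, h6, h5, by simpa using h8, by simpa using h7⟩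
  have : s.y⁻¹ * s.x⁻¹ * s.z⁻¹ = (s.z * s.x * s.y)⁻¹ := by group
  rw [this, rot3 s.mul, inv_one]

theorem fresh (U : Finset (Fin n)) {m : ℕ} (h : U.card + m ≤ n) :
    ∃ Q : Finset (Fin n), Q.card = m ∧ Disjoint U Q := by
  obtain ⟨Q, hQ, hc⟩ := exists_subset_card_eq (s := Uᶜ) (n := m)
    (by rw [card_compl, Fintype.card_fin]; omega)
  exact ⟨Q, hc, disjoint_right.2 fun v hv => mem_compl.1 (hQ hv)⟩

theorem St.insZX (h : St n a b c A B E N p q r fx fy e d) (m : ℕ) (hm : N + m ≤ n) :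
    St n a b c A B E (N + m) (p + m) q (r + m) fx (fy + m) (e * (-1) ^ m) d := by
  obtain ⟨s, h1, h2, h3, h4, h5, h6, h7, h8⟩ := h
  obtain ⟨Q, hQ, hd⟩ := fresh s.U (m := m) (by omega)
  have hf := fun v (hv : v ∈ Q) => s.fix v (disjoint_right.1 hd hv)
  have nQ : ∀ v ∈ s.U, v ∉ Q := fun v hv => disjoint_left.1 hd hv
  obtain ⟨z', x', g1, -, g3, g4, g5⟩ := pair s.z s.x s.o Q (nQ _ (s.sx s.ox))
    (fun v hv => (hf v hv).2.2) fun v hv => (hf v hv).1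
  have ez := g4 s.Z s.dz.cyc s.oz (hd.mono_left s.sz)
  have ex := g5 s.X s.dx.cyc s.ox (hd.mono_left s.sx)
  have hFy : Disjoint s.Fy Q := disjoint_left.2 fun v hv => nQ v (s.sz (s.f2 v hv).1)
  refine ⟨⟨x', s.y, z', s.X ∪ Q, s.Y, s.Z ∪ Q, s.U ∪ Q, s.Fx, s.Fy ∪ Q, s.o,
    rot3 (rot3 (by rw [g1]; exact rot3 s.mul)), s.dx.grow (fun v hv => (hf v hv).1) ex, s.dy,
    s.dz.grow (fun v hv => (hf v hv).2.2) ez, mem_union_left _ s.ox, s.oy,
    mem_union_left _ s.oz, union_subset_union_left s.sx, s.sy.trans subset_union_left,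
    union_subset_union_left s.sz, fun v hv => ?_, fun v hv => ?_, fun v hv => ?_⟩,
    ?_, ?_, h3, ?_, h5, ?_, ?_, h8⟩
  · rw [mem_union, not_or] at hv
    exact ⟨(ex.2 v (fun h => hv.1 (s.sx h)) hv.2).trans (s.fix v hv.1).1, (s.fix v hv.1).2.1,
      (ez.2 v (fun h => hv.1 (s.sz h)) hv.2).trans (s.fix v hv.1).2.2⟩
  · obtain ⟨k1, k2, k3⟩ := s.f1 v hv
    have k4 := nQ v (s.sz k1)
    exact ⟨mem_union_left _ k1, by simp [k2, k4], (ex.2 v k2 k4).trans k3⟩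
  · rcases mem_union.1 hv with hv | hv
    · exact ⟨mem_union_left _ (s.f2 v hv).1, (s.f2 v hv).2⟩
    · exact ⟨mem_union_right _ hv, fun h => nQ v (s.sy h) hv, (hf v hv).2.1⟩
  · simp only [card_union_of_disjoint hd, h1, hQ]
  · simp only [card_union_of_disjoint (hd.mono_left s.sx), h2, hQ]
  · simp only [card_union_of_disjoint (hd.mono_left s.sz), h4, hQ]
  · simp only [card_union_of_disjoint hFy, h6, hQ]
  · simp only [g3, h7, hQ]

theorem St.insYZ (h : St n a b c A B E N p q r fx fy e d) (m : ℕ) (hm : N + m ≤ n) :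
    St n a b c A B E (N + m) p (q + m) (r + m) (fx + m) fy e (d * (-1) ^ m) :=
  (h.mirror.insZX m hm).mirror

theorem St.newX (h : St n a b c A B E N p q r (fx + 1) fy e d) (m : ℕ) (hm : N + m ≤ n)
    (ha : m + 1 ∣ a) : St n a b c A B E (N + m) p q (r + m) fx (fy + m) (e * (-1) ^ m) d := by
  obtain ⟨s, h1, h2, h3, h4, h5, h6, h7, h8⟩ := h
  obtain ⟨Q, hQ, hd⟩ := fresh s.U (m := m) (by omega)
  obtain ⟨u, hu⟩ : s.Fx.Nonempty := card_pos.1 (by omega)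
  obtain ⟨u1, u2, u3⟩ := s.f1 u hu
  have hf := fun v (hv : v ∈ Q) => s.fix v (disjoint_right.1 hd hv)
  have nQ : ∀ v ∈ s.U, v ∉ Q := fun v hv => disjoint_left.1 hd hv
  obtain ⟨z', x', g1, -, g3, g4, g5⟩ := pair s.z s.x u Q (nQ _ (s.sz u1))
    (fun v hv => (hf v hv).2.2) fun v hv => (hf v hv).1
  have ez := g4 s.Z s.dz.cyc u1 (hd.mono_left s.sz)
  have ex := g5 {u} (by simpa using u3) (mem_singleton_self u) (by simpa using nQ _ (s.sz u1))
  have hFy : Disjoint s.Fy Q := disjoint_left.2 fun v hv => nQ v (s.sz (s.f2 v hv).1)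
  refine ⟨⟨x', s.y, z', s.X, s.Y, s.Z ∪ Q, s.U ∪ Q, s.Fx.erase u, s.Fy ∪ Q, s.o,
    rot3 (rot3 (by rw [g1]; exact rot3 s.mul)),
    (s.dx.new (fun v hv => (hf v hv).1) u3 u2 (nQ _ (s.sz u1)) (hd.mono_left s.sx) ex
      (hQ ▸ ha)).1, s.dy,
    s.dz.grow (fun v hv => (hf v hv).2.2) ez, s.ox, s.oy,
    mem_union_left _ s.oz, s.sx.trans subset_union_left, s.sy.trans subset_union_left,
    union_subset_union_left s.sz, fun v hv => ?_, fun v hv => ?_, fun v hv => ?_⟩,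
    ?_, h2, h3, ?_, ?_, ?_, ?_, h8⟩
  · rw [mem_union, not_or] at hv
    exact ⟨(ex.2 v (fun h => hv.1 (mem_singleton.1 h ▸ s.sz u1)) hv.2).trans (s.fix v hv.1).1,
      (s.fix v hv.1).2.1, (ez.2 v (fun h => hv.1 (s.sz h)) hv.2).trans (s.fix v hv.1).2.2⟩
  · obtain ⟨k0, hv⟩ := mem_erase.1 hv
    obtain ⟨k1, k2, k3⟩ := s.f1 v hv
    exact ⟨mem_union_left _ k1, k2, (ex.2 v (by simpa using k0) (nQ v (s.sz k1))).trans k3⟩
  · rcases mem_union.1 hv with hv | hv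
    · exact ⟨mem_union_left _ (s.f2 v hv).1, (s.f2 v hv).2⟩
    · exact ⟨mem_union_right _ hv, fun h => nQ v (s.sy h) hv, (hf v hv).2.1⟩
  · simp only [card_union_of_disjoint hd, h1, hQ]
  · simp only [card_union_of_disjoint (hd.mono_left s.sz), h4, hQ]
  · simp only [card_erase_of_mem hu, h5, Nat.add_sub_cancel]
  · simp only [card_union_of_disjoint hFy, h6, hQ]
  · simp only [g3, h7, hQ]

theorem St.newY (h : St n a b c A B E N p q r fx (fy + 1) e d) (m : ℕ) (hm : N + m ≤ n)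
    (ha : m + 1 ∣ b) : St n a b c A B E (N + m) p q (r + m) (fx + m) fy e (d * (-1) ^ m) :=
  (h.mirror.newX m hm ha).mirror

theorem St.finish (h : St n a b c A B E N p q r fx fy e d) (ha : Nat.lcm p A = a)
    (hb : Nat.lcm q B = b) (hc : Nat.lcm r E = c) : RS n a b c e d := by
  obtain ⟨s, -, h2, h3, h4, -, -, h7, h8⟩ := h
  refine ⟨s.x, s.y, s.dx.order ⟨_, s.ox⟩ (h2 ▸ ha), s.dy.order ⟨_, s.oy⟩ (h3 ▸ hb), ?_, h7, h8⟩
  rw [eq_inv_of_mul_eq_one_left s.mul, orderOf_inv]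
  exact s.dz.order ⟨_, s.oz⟩ (h4 ▸ hc)

theorem St.fin (h : St n a b c 1 1 E N p q r fx fy e d) {r' : ℕ} (hp : p = a) (hq : q = b)
    (hr : r = r') (hc : Nat.lcm r' E = c) : RS n a b c e d :=
  h.finish (by simp [hp]) (by simp [hq]) (hr ▸ hc)

end Pool.Agent.Lib.MP_bdfe25_al
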