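import Pool.Agent.Lib.MP_bdfe25_al.StE

/-! The sign obstruction and the case analysis. -/

namespace Pool.Agent.Lib.MP_bdfe25_al

open Equiv Equiv.Perm

variable {n a b c m : ℕ}

theorem type_eq (σ : Perm (Fin n)) {A : Multiset ℕ} (hA : A ≤ σ.cycleType) (hn : n ≤ A.sum + 1) :
    σ.cycleType = A := by
  obtain ⟨T, hT⟩ := Multiset.le_iff_exists_add.1 hA
  have h1 := σ.sum_cycleType_le
  rw [hT, Multiset.sum_add, Fintype.card_fin] at h1
  rcases T.empty_or_exists_mem with rfl | ⟨t, ht⟩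
  · simpa using hT
  · have h2 : 2 ≤ t := two_le_of_mem_cycleType (hT ▸ Multiset.mem_add.2 (Or.inr ht))
    have h3 := Multiset.single_le_sum (s := T) (fun _ _ => Nat.zero_le _) t ht
    omega

theorem exists_not_dvd (σ : Perm (Fin n)) {k : ℕ} (h : ¬ orderOf σ ∣ k) :
    ∃ t ∈ σ.cycleType, 2 ≤ t ∧ t ∣ orderOf σ ∧ ¬ t ∣ k := by
  by_contra hh
  refine h (σ.lcm_cycleType ▸ Multiset.lcm_dvd.2 fun t ht => ?_)
  by_contra h1
  exact hh ⟨t, ht, two_le_of_mem_cycleType ht, dvd_of_mem_cycleType ht, h1⟩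

theorem sign_bad (σ : Perm (Fin n)) (h1 : 1 < m) (hσ : orderOf σ = m)
    (h : (∃ k, m = 2 ^ k ∧ n ≤ m + 1) ∨ (m = 6 ∧ n = 6)) : sign σ = -1 := by
  have single : m ∈ σ.cycleType → Even m → n ≤ m + 1 → sign σ = -1 := fun a1 a2 a3 => by
    rw [sign_of_cycleType, type_eq σ (Multiset.singleton_le.2 a1) (by simpa using a3)]
    simpa using a2.add_one.neg_one_pow
  rcases h with ⟨k, hk, hn⟩ | ⟨rfl, hn⟩
  · rcases k with _ | k
    · simp at hk; omega
    obtain ⟨t, t1, -, t3, t4⟩ := exists_not_dvd σ (k := 2 ^ k) fun h => by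
      have := Nat.le_of_dvd (by positivity) h
      rw [hσ, hk, pow_succ] at this
      have : 0 < 2 ^ k := by positivity
      omega
    rw [hσ, hk] at t3
    obtain ⟨j, hj, rfl⟩ := (Nat.dvd_prime_pow Nat.prime_two).1 t3
    have : j = k + 1 := by
      by_contra h
      exact t4 (pow_dvd_pow 2 (by omega))
    exact single (hk ▸ this ▸ t1) (hk ▸ (Nat.even_pow.2 ⟨even_two, by omega⟩)) hn
  · by_cases h6 : 6 ∈ σ.cycleType
    · exact single h6 (by decide) (by omega)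
    obtain ⟨t, t1, t2, t3, t4⟩ := exists_not_dvd σ (k := 2) (by rw [hσ]; decide)
    obtain ⟨u, u1, u2, u3, u4⟩ := exists_not_dvd σ (k := 3) (by rw [hσ]; decide)
    rw [hσ] at t3 u3
    have t5 : t ≠ 6 := fun h => h6 (h ▸ t1)
    have u5 : u ≠ 6 := fun h => h6 (h ▸ u1)
    have t6 := Nat.le_of_dvd (by decide) t3
    have u6 := Nat.le_of_dvd (by decide) u3
    obtain rfl : t = 3 := by interval_cases t <;> simp_all
    obtain rfl : u = 2 := by interval_cases u <;> simp_all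
    have hle : ({3, 2} : Multiset ℕ) ≤ σ.cycleType :=
      (Multiset.le_iff_subset (by decide)).2 fun x hx => by
        rcases Multiset.mem_cons.1 hx with rfl | hx
        · exact t1
        · exact Multiset.mem_singleton.1 hx ▸ u1
    rw [sign_of_cycleType, type_eq σ hle (by simp [hn])]
    decide

/-- An even number without the obstruction splits as `2 ^ s * r` with enough room. -/
theorem decomp (hm : Even m) (h2 : 2 ≤ m) (hmn : m ≤ n) (hn : n ≤ m + 1)
    (h : ¬ ((∃ k, m = 2 ^ k ∧ n ≤ m + 1) ∨ (m = 6 ∧ n = 6))) :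
    ∃ r E, Odd r ∧ 3 ≤ r ∧ Even E ∧ m = E * r ∧ Nat.lcm r E = m ∧ r + E + 2 ≤ n ∧
      r + E + 1 ≤ m ∧ (E = 2 ∨ E = 4 ∨ 8 ≤ E) := by
  obtain ⟨s, r, hr, rfl⟩ := Nat.exists_eq_two_pow_mul_odd (n := m) (by omega)
  have h3 : 3 ≤ r := by
    by_contra h3
    obtain rfl : r = 1 := by rw [Nat.odd_iff] at hr; omega
    exact h (Or.inl ⟨s, by simp, hn⟩)
  have hE : 2 ^ s = 2 ∨ 2 ^ s = 4 ∨ 8 ≤ 2 ^ s := by
    rcases s with _ | _ | _ | s
    · exact absurd (by simpa using hm) (Nat.not_even_iff_odd.2 hr)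
    · simp
    · simp
    · have : 0 < 2 ^ s := by positivity
      right; right
      rw [pow_succ, pow_succ, pow_succ]; omega
  have hev : Even (2 ^ s) := by
    rcases s with _ | s
    · exact absurd (by simpa using hm) (Nat.not_even_iff_odd.2 hr)
    · exact Nat.even_pow.2 ⟨even_two, by omega⟩
  have hl : Nat.lcm r (2 ^ s) = 2 ^ s * r := by
    rw [Nat.Coprime.lcm_eq_mul (Nat.Coprime.pow_right s (by simpa using hr)), mul_comm]
  have h6 : ¬ (2 ^ s * r = 6 ∧ n = 6) := fun k => h (Or.inr k)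
  generalize 2 ^ s = E at *
  obtain ⟨u, rfl⟩ : ∃ u, r = u + 3 := ⟨r - 3, by omega⟩
  obtain ⟨v, rfl⟩ : ∃ v, E = v + 2 := ⟨E - 2, by omega⟩
  have e1 : (v + 2) * (u + 3) = v * u + 3 * v + 2 * u + 6 := by ring
  refine ⟨u + 3, v + 2, hr, h3, hev, rfl, hl, ?_, by omega, hE⟩
  rcases Nat.eq_zero_or_pos (u + v) with k | k
  · obtain ⟨rfl, rfl⟩ : u = 0 ∧ v = 0 := by omega
    omega
  · omega

theorem L4' (hc : Even c) (h2 : 2 ≤ c) : RS (c + 2) c c c (-1) (-1) := by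
  rcases Nat.lt_or_ge c 4 with h | h
  · obtain rfl : c = 2 := by rw [Nat.even_iff] at hc; omega
    exact sp2
  · exact L4 hc h

theorem all_odd (ha : Odd a) (hb : Odd b) (hc : Odd c) (h3 : 3 ≤ a) (hab : a ≤ b) (h3c : 3 ≤ c) :
    R (max b c) a b c := by
  rcases le_total b c with h | h
  · rw [max_eq_right h]
    exact L1 (by omega) hab h (Or.inr (Or.inl ⟨ha, hb, hc⟩))
  · rw [max_eq_left h]
    rcases le_total a c with k | k
    · exact (L1 (by omega) k h (Or.inr (Or.inl ⟨ha, hc, hb⟩))).swap.rot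
    · exact (L1 (by omega) k hab (Or.inr (Or.inl ⟨hc, ha, hb⟩))).rot

theorem small_even (ha : Odd a) (hb : Odd b) (hc : Even c) (h3 : 3 ≤ a) (hab : a ≤ b)
    (h2 : 2 ≤ c) (hcb : c + 2 ≤ b) : R b a b c := by
  rcases hab.eq_or_lt with rfl | h
  · exact (L3 hc h2 hcb).rot
  rcases le_total a c with k | k
  · exact (L1 (by omega) k (by omega) (Or.inr (Or.inr (Or.inl ⟨ha, hc, hcb⟩)))).swap.rot
  · exact (L1 h2 k hab (Or.inr (Or.inr (Or.inr ⟨hc, h⟩)))).rot

/-- Two odd orders below a composite even order. -/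
theorem caseA {r E : ℕ} (ha : Odd a) (hb : Odd b) (h3 : 3 ≤ a) (hab : a ≤ b) (hr : Odd r)
    (h3r : 3 ≤ r) (hE : Even E) (hc : c = E * r) (hl : Nat.lcm r E = c) (hn : r + E + 2 ≤ n)
    (hE' : E = 2 ∨ E = 4 ∨ 8 ≤ E) (hbn : b ≤ n) (hcn : c ≤ n) : R n a b c := by
  by_cases k1 : r + E + 2 ≤ b
  · exact ((L5 ha h3 hb hab hr hE (by omega) hl k1).rot).mono hbn
  have ha' := Nat.odd_iff.1 ha
  have hb' := Nat.odd_iff.1 hb
  have hr' := Nat.odd_iff.1 hr
  have hE2 := Nat.even_iff.1 hE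
  by_cases k2 : E = 2 ∧ b = r + 2
  · obtain ⟨rfl, rfl⟩ := k2
    subst hc
    by_cases k3 : 5 ≤ a ∨ 5 ≤ r
    · exact (L7 ha h3 hr hab k3).mono (by omega)
    · obtain ⟨rfl, rfl⟩ : a = 3 ∧ r = 3 := by omega
      exact sp356.mono (by omega)
  by_cases k3 : E = 4 ∧ r = 3 ∧ b = 7
  · obtain ⟨rfl, rfl, rfl⟩ := k3
    subst hc
    obtain rfl | rfl | rfl : a = 3 ∨ a = 5 ∨ a = 7 := by omega
    exacts [sp3.mono hn, sp5.mono hn, sp7.mono hn]
  have s1 := all_odd ha hb hr h3 hab h3r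
  obtain ⟨u, rfl⟩ : ∃ u, r = u + 3 := ⟨r - 3, by omega⟩
  obtain ⟨v, rfl⟩ : ∃ v, E = v + 2 := ⟨E - 2, by omega⟩
  have e1 : (v + 2) * (u + 3) = v * u + 3 * v + 2 * u + 6 := by ring
  have e2 : v = 2 → v * u = 2 * u := fun k => by rw [k]
  by_cases k4 : b ≤ v + 2 + 1
  · have s2 := s1.add (L2 ha h3 hb hab hE k4)
    rw [Nat.lcm_self, Nat.lcm_self, hl] at s2
    exact s2.mono (by omega)
  · have s2 := s1.add (small_even ha hb hE h3 hab (by omega) (by omega))
    rw [Nat.lcm_self, Nat.lcm_self, hl] at s2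
    exact s2.mono (by omega)

/-- The explicit form of: the symmetric group on `n` points has no even element of order `m`. -/
def Bad (n m : ℕ) : Prop := (∃ k, m = 2 ^ k ∧ n ≤ m + 1) ∨ (m = 6 ∧ n = 6)

theorem caseB (ha : Odd a) (h3 : 3 ≤ a) (hc : Odd c) (hac : a ≤ c) (hm : m + 1 = c) (hcn : c ≤ n)
    (h : ¬ Bad n m) : R n a m c := by
  have hme : Even m := by
    rw [Nat.odd_iff] at hc
    rw [Nat.even_iff]; omega
  rcases hcn.eq_or_lt with rfl | k
  · obtain ⟨r, E, a1, a2, a3, a4, a5, a6, a7, a8⟩ := decomp hme (by omega) (by omega) (by omega) h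
    exact (L5 ha h3 hc hac a1 a3 (by omega) a5 a6).swap
  · exact ((L2 ha h3 hc hac hme (by omega)).swap.rot).mono (by omega)

theorem sorted (h2 : 2 ≤ a) (hab : a ≤ b) (hbc : b ≤ c) (hcn : c ≤ n)
    (h : ¬ ((Bad n a ∧ Odd b ∧ Odd c) ∨ (Odd a ∧ Bad n b ∧ Odd c) ∨ (Odd a ∧ Odd b ∧ Bad n c) ∨
      (Bad n a ∧ Bad n b ∧ Bad n c))) : R n a b c := by
  simp only [not_or, not_and] at h
  obtain ⟨g1, g2, g3, g4⟩ := h
  rcases Nat.even_or_odd a with ha | ha
  · rcases hbc.eq_or_lt with rfl | k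
    · by_cases k1 : a + 2 ≤ b
      · exact (L3 ha h2 k1).mono hcn
      rcases Nat.even_or_odd b with hb | hb
      · obtain rfl : a = b := by rw [Nat.even_iff] at ha hb; omega
        by_cases k2 : a + 2 ≤ n
        · exact (L4' ha h2).r.mono k2
        obtain ⟨r, E, a1, a2, a3, a4, a5, a6, a7, a8⟩ := decomp ha h2 hcn (by omega)
          fun k => g4 k k k
        have s := (L1 (a := r) (by omega) le_rfl le_rfl (Or.inl ⟨a1, rfl⟩)).add
          (L4' a3 (by omega)).r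
        rw [a5] at s
        exact s.mono (by omega)
      · have hb' := Nat.odd_iff.1 hb
        have ha' := Nat.even_iff.1 ha
        exact (caseB hb (by omega) hb le_rfl (by omega) hcn fun k => g1 k hb hb).swap
    · exact (L1 h2 hab hbc (Or.inr (Or.inr (Or.inr ⟨ha, k⟩)))).mono hcn
  have ha' := Nat.odd_iff.1 ha
  rcases hbc.eq_or_lt with rfl | k
  · exact (L1 h2 hab le_rfl (Or.inl ⟨ha, rfl⟩)).mono hcn
  rcases Nat.even_or_odd b with hb | hb
  · by_cases k1 : b + 2 ≤ c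
    · exact (L1 h2 hab hbc (Or.inr (Or.inr (Or.inl ⟨ha, hb, k1⟩)))).mono hcn
    · have hc : Odd c := by
        rw [Nat.even_iff] at hb
        rw [Nat.odd_iff]; omega
      exact caseB ha (by omega) hc (by omega) (by omega) hcn fun k => g2 ha k hc
  rcases Nat.even_or_odd c with hc | hc
  · by_cases k2 : c + 2 ≤ n
    · exact (L2 ha (by omega) hb hab hc (by omega)).mono k2
    obtain ⟨r, E, a1, a2, a3, a4, a5, a6, a7, a8⟩ := decomp hc (by omega) hcn (by omega)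
      (g3 ha hb)
    exact caseA ha hb (by omega) hab a1 a2 a3 a4 a5 a6 a8 (by omega) hcn
  · exact (L1 h2 hab hbc (Or.inr (Or.inl ⟨ha, hb, hc⟩))).mono hcn

theorem sharp (ha : 1 < a) (hb : 1 < b) (hc : 1 < c) (han : a ≤ n) (hbn : b ≤ n) (hcn : c ≤ n) :
    R n a b c ↔ ¬ ((Bad n a ∧ Odd b ∧ Odd c) ∨ (Odd a ∧ Bad n b ∧ Odd c) ∨
      (Odd a ∧ Odd b ∧ Bad n c) ∨ (Bad n a ∧ Bad n b ∧ Bad n c)) := by
  constructor
  · rintro ⟨x, y, h1, h2, h3⟩ h
    have ev : ∀ {k : ℕ} {g : Perm (Fin n)}, orderOf g = k → Odd k → sign g = 1 :=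
      fun e o => sign_odd o (e ▸ pow_orderOf_eq_one _)
    have hm : sign (x * y) = sign x * sign y := Perm.sign_mul x y
    rcases h with ⟨k1, k2, k3⟩ | ⟨k1, k2, k3⟩ | ⟨k1, k2, k3⟩ | ⟨k1, k2, k3⟩
    · rw [sign_bad x ha h1 k1, ev h2 k2, ev h3 k3] at hm
      exact absurd hm (by decide)
    · rw [ev h1 k1, sign_bad y hb h2 k2, ev h3 k3] at hm
      exact absurd hm (by decide)
    · rw [ev h1 k1, ev h2 k2, sign_bad _ hc h3 k3] at hm
      exact absurd hm (by decide)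
    · rw [sign_bad x ha h1 k1, sign_bad y hb h2 k2, sign_bad _ hc h3 k3] at hm
      exact absurd hm (by decide)
  · intro h
    rcases le_total a b with k1 | k1 <;> rcases le_total b c with k2 | k2 <;>
      rcases le_total a c with k3 | k3
    · exact sorted ha k1 k2 hcn h
    · exact sorted ha k1 k2 hcn h
    · exact (sorted ha k3 k2 hbn (by tauto)).swap.rot
    · exact (sorted hc k3 k1 hbn (by tauto)).rot
    · exact (sorted hb k1 k3 hcn (by tauto)).swap
    · exact (sorted hb k2 k3 han (by tauto)).rot.rot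
    · exact (sorted hc k2 k1 han (by tauto)).rot.swap
    · exact (sorted hc k2 k1 han (by tauto)).rot.swap

end Pool.Agent.Lib.MP_bdfe25_al
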